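import Pool.Agent.helper11.RPQ.SpecA

set_option autoImplicit false

open MeasureTheory

namespace Pool.Agent.RPQ

noncomputable section

variable {Y : Type} [MeasurableSpace Y] {μ : Measure Y}

/-- the norm in `Lp ℂ 2 μ` -/
theorem KO_norm (v : Lp ℂ 2 μ) : ‖v‖ ^ 2 = ∫ y, ‖v y‖ ^ 2 ∂μ := by
  have h1 : inner ℂ v v = ((‖v‖ ^ 2 : ℝ) : ℂ) := by
    rw [inner_self_eq_norm_sq_to_K]
    push_cast
    rfl
  have h2 : inner ℂ v v = ((∫ y, ‖v y‖ ^ 2 ∂μ : ℝ) : ℂ) := by
    rw [L2.inner_def, ← integral_complex_ofReal]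
    refine integral_congr_ae (Filter.Eventually.of_forall fun y => ?_)
    show inner ℂ (v y) (v y) = ((‖v y‖ ^ 2 : ℝ) : ℂ)
    rw [inner_self_eq_norm_sq_to_K]
    push_cast
    rfl
  have h3 := h1.symm.trans h2
  exact_mod_cast h3

theorem KO_row_memLp [IsFiniteMeasure μ] (k : Y → ℂ) (hk : Measurable k) (hB : ∃ B : ℝ, ∀ z, ‖k z‖ ≤ B) : MemLp k 2 μ := by
  obtain ⟨B, hB⟩ := hB
  exact MemLp.of_bound hk.aestronglyMeasurable B (Filter.Eventually.of_forall hB)

/-- Cauchy-Schwarz -/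
theorem KO_cs [IsFiniteMeasure μ] (k : Y → ℂ) (hk : Measurable k) (hB : ∃ B : ℝ, ∀ z, ‖k z‖ ≤ B) (v : Lp ℂ 2 μ) :
    ‖∫ z, k z * v z ∂μ‖ ^ 2 ≤ (∫ z, ‖k z‖ ^ 2 ∂μ) * ‖v‖ ^ 2 := by
  have hc : Measurable fun z => (starRingEnd ℂ) (k z) := Complex.continuous_conj.measurable.comp hk
  have hcB : ∃ B : ℝ, ∀ z, ‖(starRingEnd ℂ) (k z)‖ ≤ B := by
    obtain ⟨B, hB⟩ := hB
    exact ⟨B, fun z => by rw [RCLike.norm_conj]; exact hB z⟩
  have hm := KO_row_memLp (μ := μ) _ hc hcB
  obtain ⟨w, hw⟩ : ∃ w : Lp ℂ 2 μ, w = hm.toLp _ := ⟨_, rfl⟩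
  have hwe : (w : Y → ℂ) =ᵐ[μ] fun z => (starRingEnd ℂ) (k z) := by
    rw [hw]
    exact hm.coeFn_toLp
  have h1 : inner ℂ w v = ∫ z, k z * v z ∂μ := by
    rw [L2.inner_def]
    refine integral_congr_ae ?_
    filter_upwards [hwe] with z hz
    rw [hz, RCLike.inner_apply, Complex.conj_conj, mul_comm]
  have h2 : ‖w‖ ^ 2 = ∫ z, ‖k z‖ ^ 2 ∂μ := by
    rw [KO_norm]
    refine integral_congr_ae ?_
    filter_upwards [hwe] with z hz
    rw [hz, RCLike.norm_conj]
  rw [← h1, ← h2, ← mul_pow]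
  exact pow_le_pow_left₀ (norm_nonneg _) (norm_inner_le_norm _ _) 2

theorem KO_int [IsFiniteMeasure μ] (k : Y → ℂ) (hk : Measurable k) (hB : ∃ B : ℝ, ∀ z, ‖k z‖ ≤ B) (v : Lp ℂ 2 μ) :
    Integrable (fun z => k z * v z) μ := by
  obtain ⟨B, hB⟩ := hB
  have hv : Integrable (v : Y → ℂ) μ := (Lp.memLp v).integrable one_le_two
  exact hv.bdd_mul hk.aestronglyMeasurable (Filter.Eventually.of_forall hB)

theorem KO_meas [SFinite μ] (K : Y → Y → ℂ) (hK : Measurable (Function.uncurry K)) (v : Lp ℂ 2 μ) :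
    StronglyMeasurable fun y => ∫ z, K y z * v z ∂μ := by
  refine StronglyMeasurable.integral_prod_right (f := fun y z => K y z * v z) ?_
  have h1 : StronglyMeasurable (Function.uncurry K) := hK.stronglyMeasurable
  have h2 : StronglyMeasurable fun p : Y × Y => v p.2 := (Lp.stronglyMeasurable v).comp_measurable measurable_snd
  exact h1.mul h2

theorem KO_row (K : Y → Y → ℂ) (hK : Measurable (Function.uncurry K)) (y : Y) : Measurable (K y) :=
  hK.comp measurable_prodMk_left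

theorem KO_rowB (K : Y → Y → ℂ) (hB : ∃ B : ℝ, ∀ y z, ‖K y z‖ ≤ B) (y : Y) : ∃ B : ℝ, ∀ z, ‖K y z‖ ≤ B := by
  obtain ⟨B, hB⟩ := hB
  exact ⟨B, hB y⟩

theorem KO_sq_int [IsFiniteMeasure μ] (K : Y → Y → ℂ) (hK : Measurable (Function.uncurry K)) (hB : ∃ B : ℝ, ∀ y z, ‖K y z‖ ≤ B) :
    Integrable (fun y => ∫ z, ‖K y z‖ ^ 2 ∂μ) μ := by
  obtain ⟨B, hB⟩ := hB
  have h1 : StronglyMeasurable fun y => ∫ z, ‖K y z‖ ^ 2 ∂μ := by
    refine StronglyMeasurable.integral_prod_right (f := fun y z => ‖K y z‖ ^ 2) ?_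
    exact (hK.norm.pow_const 2).stronglyMeasurable
  refine Integrable.of_bound h1.aestronglyMeasurable (B ^ 2 * μ.real Set.univ) (Filter.Eventually.of_forall fun y => ?_)
  rw [Real.norm_of_nonneg (integral_nonneg fun z => by positivity)]
  have h2 : ∀ z, ‖K y z‖ ^ 2 ≤ B ^ 2 := fun z => pow_le_pow_left₀ (norm_nonneg _) (hB y z) 2
  refine (integral_mono_of_nonneg (Filter.Eventually.of_forall fun z => by positivity) (integrable_const _)
    (Filter.Eventually.of_forall h2)).trans (le_of_eq ?_)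
  rw [integral_const, smul_eq_mul, mul_comm]

theorem KO_bound [IsFiniteMeasure μ] (K : Y → Y → ℂ) (hK : Measurable (Function.uncurry K)) (hB : ∃ B : ℝ, ∀ y z, ‖K y z‖ ≤ B)
    (v w : Lp ℂ 2 μ) (hw : (w : Y → ℂ) =ᵐ[μ] fun y => ∫ z, K y z * v z ∂μ) :
    ‖w‖ ^ 2 ≤ (∫ y, ∫ z, ‖K y z‖ ^ 2 ∂μ ∂μ) * ‖v‖ ^ 2 := by
  rw [KO_norm w, ← integral_mul_const]
  refine integral_mono_of_nonneg (Filter.Eventually.of_forall fun y => by positivity) ((KO_sq_int K hK hB).mul_const _) ?_
  filter_upwards [hw] with y hy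
  rw [hy]
  exact KO_cs (K y) (KO_row K hK y) (KO_rowB K hB y) v

theorem KO1_proof : KO1_stmt := by
  intro Y _ μ _ K hK hB
  obtain ⟨C, hC⟩ : ∃ C : ℝ, C = Real.sqrt (∫ y, ∫ z, ‖K y z‖ ^ 2 ∂μ ∂μ) := ⟨_, rfl⟩
  have hI : 0 ≤ ∫ y, ∫ z, ‖K y z‖ ^ 2 ∂μ ∂μ := integral_nonneg fun y => integral_nonneg fun z => by positivity
  have hC2 : C ^ 2 = ∫ y, ∫ z, ‖K y z‖ ^ 2 ∂μ ∂μ := by rw [hC, Real.sq_sqrt hI]
  have hC0 : 0 ≤ C := by rw [hC]; exact Real.sqrt_nonneg _
  have hle : ∀ v w : Lp ℂ 2 μ, (w : Y → ℂ) =ᵐ[μ] (fun y => ∫ z, K y z * v z ∂μ) → ‖w‖ ≤ C * ‖v‖ := by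
    intro v w hw
    refine le_of_sq_le_sq ?_ (by positivity)
    rw [mul_pow, hC2]
    exact KO_bound K hK hB v w hw
  constructor
  · have hmem : ∀ v : Lp ℂ 2 μ, MemLp (fun y => ∫ z, K y z * v z ∂μ) 2 μ := by
      intro v
      obtain ⟨B, hB'⟩ := hB
      refine MemLp.of_bound (KO_meas K hK v).aestronglyMeasurable (Real.sqrt (B ^ 2 * μ.real Set.univ) * ‖v‖) (Filter.Eventually.of_forall fun y => ?_)
      refine le_of_sq_le_sq ?_ (by positivity)
      rw [mul_pow, Real.sq_sqrt (by positivity)]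
      refine (KO_cs (K y) (KO_row K hK y) ⟨B, hB' y⟩ v).trans (mul_le_mul_of_nonneg_right ?_ (by positivity))
      have h2 : ∀ z, ‖K y z‖ ^ 2 ≤ B ^ 2 := fun z => pow_le_pow_left₀ (norm_nonneg _) (hB' y z) 2
      refine (integral_mono_of_nonneg (Filter.Eventually.of_forall fun z => by positivity) (integrable_const _)
        (Filter.Eventually.of_forall h2)).trans (le_of_eq ?_)
      rw [integral_const, smul_eq_mul, mul_comm]
    have hco : ∀ v : Lp ℂ 2 μ, ((hmem v).toLp _ : Y → ℂ) =ᵐ[μ] fun y => ∫ z, K y z * v z ∂μ := fun v => (hmem v).coeFn_toLp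
    obtain ⟨T₀, hT₀⟩ : ∃ T₀ : Lp ℂ 2 μ →ₗ[ℂ] Lp ℂ 2 μ, ∀ v, T₀ v = (hmem v).toLp _ := by
      refine ⟨{ toFun := fun v => (hmem v).toLp _, map_add' := ?_, map_smul' := ?_ }, fun v => rfl⟩
      · intro v w
        refine Lp.ext ?_
        filter_upwards [hco (v + w), hco v, hco w, Lp.coeFn_add ((hmem v).toLp _) ((hmem w).toLp _)] with y h1 h2 h3 h4
        rw [h1, h4, Pi.add_apply, h2, h3, ← integral_add (KO_int (K y) (KO_row K hK y) (KO_rowB K hB y) v)
          (KO_int (K y) (KO_row K hK y) (KO_rowB K hB y) w)]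
        refine integral_congr_ae ?_
        filter_upwards [Lp.coeFn_add v w] with z hz
        rw [hz, Pi.add_apply, mul_add]
      · intro c v
        refine Lp.ext ?_
        filter_upwards [hco (c • v), hco v, Lp.coeFn_smul c ((hmem v).toLp _)] with y h1 h2 h4
        rw [h1, RingHom.id_apply, h4, Pi.smul_apply, h2, smul_eq_mul, ← integral_const_mul]
        refine integral_congr_ae ?_
        filter_upwards [Lp.coeFn_smul c v] with z hz
        rw [hz, Pi.smul_apply, smul_eq_mul]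
        ring
    refine ⟨T₀.mkContinuous C fun v => ?_, fun v => ?_⟩
    · rw [hT₀]
      exact hle v _ (hco v)
    · rw [LinearMap.mkContinuous_apply, hT₀]
      exact hco v
  · intro T hT
    have h1 : ‖T‖ ≤ C := ContinuousLinearMap.opNorm_le_bound _ hC0 fun v => hle v _ (hT v)
    rw [← hC2]
    exact pow_le_pow_left₀ (norm_nonneg _) h1 2

theorem KO2_mul (m : Y → ℂ) (hm : Measurable m) (hB : ∃ B : ℝ, ∀ y, ‖m y‖ ≤ B) : ∃ M, IsMul μ m M := by
  obtain ⟨B, hB⟩ := hB
  have hmem : ∀ v : Lp ℂ 2 μ, MemLp (fun y => m y * v y) 2 μ := by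
    intro v
    refine MemLp.of_le_mul (c := B) (Lp.memLp v) (hm.aestronglyMeasurable.mul (Lp.aestronglyMeasurable v)) (Filter.Eventually.of_forall fun y => ?_)
    rw [norm_mul]
    exact mul_le_mul_of_nonneg_right (hB y) (norm_nonneg _)
  have hco : ∀ v : Lp ℂ 2 μ, ((hmem v).toLp _ : Y → ℂ) =ᵐ[μ] fun y => m y * v y := fun v => (hmem v).coeFn_toLp
  obtain ⟨T₀, hT₀⟩ : ∃ T₀ : Lp ℂ 2 μ →ₗ[ℂ] Lp ℂ 2 μ, ∀ v, T₀ v = (hmem v).toLp _ := by
    refine ⟨{ toFun := fun v => (hmem v).toLp _, map_add' := ?_, map_smul' := ?_ }, fun v => rfl⟩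
    · intro v w
      refine Lp.ext ?_
      filter_upwards [hco (v + w), hco v, hco w, Lp.coeFn_add ((hmem v).toLp _) ((hmem w).toLp _), Lp.coeFn_add v w] with y h1 h2 h3 h4 h5
      rw [h1, h4, Pi.add_apply, h2, h3, h5, Pi.add_apply, mul_add]
    · intro c v
      refine Lp.ext ?_
      filter_upwards [hco (c • v), hco v, Lp.coeFn_smul c ((hmem v).toLp _), Lp.coeFn_smul c v] with y h1 h2 h4 h5
      rw [h1, RingHom.id_apply, h4, Pi.smul_apply, h2, h5, Pi.smul_apply, smul_eq_mul, smul_eq_mul]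
      ring
  refine ⟨T₀.mkContinuous B fun v => ?_, fun v => ?_⟩
  · rw [hT₀]
    refine Lp.norm_le_mul_norm_of_ae_le_mul ?_
    filter_upwards [hco v] with y hy
    rw [hy, norm_mul]
    exact mul_le_mul_of_nonneg_right (hB y) (norm_nonneg _)
  · rw [LinearMap.mkContinuous_apply, hT₀]
    exact hco v

theorem KO2_proof : KO2_stmt := by
  intro Y _ μ _
  refine ⟨?_, ?_, ?_, ?_, ?_⟩
  · intro K L T S hK hKB hL hLB hT hS v
    filter_upwards [hT (S v)] with y hy
    rw [ContinuousLinearMap.mul_apply, hy]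
    have h1 : ∫ x, K y x * (S v) x ∂μ = ∫ x, ∫ z, K y x * (L x z * v z) ∂μ ∂μ := by
      refine integral_congr_ae ?_
      filter_upwards [hS v] with x hx
      rw [hx, ← integral_const_mul]
    rw [h1]
    have hint : Integrable (Function.uncurry fun x z => K y x * (L x z * v z)) (μ.prod μ) := by
      obtain ⟨B, hB⟩ := hKB
      obtain ⟨B', hB'⟩ := hLB
      have hv : Integrable (v : Y → ℂ) μ := (Lp.memLp v).integrable one_le_two
      have h2 : Integrable (fun p : Y × Y => v p.2) (μ.prod μ) := by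
        have h3 := (integrable_const (1 : ℂ) (μ := μ)).mul_prod hv
        refine h3.congr (Filter.Eventually.of_forall fun p => ?_)
        show (1 : ℂ) * v p.2 = v p.2
        rw [one_mul]
      have h4 : Measurable fun p : Y × Y => K y p.1 * L p.1 p.2 := ((KO_row K hK y).comp measurable_fst).mul hL
      have h5 : Integrable (fun p : Y × Y => (K y p.1 * L p.1 p.2) * v p.2) (μ.prod μ) := by
        refine h2.bdd_mul (c := B * B') h4.aestronglyMeasurable (Filter.Eventually.of_forall fun p => ?_)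
        rw [norm_mul]
        exact mul_le_mul (hB y p.1) (hB' p.1 p.2) (norm_nonneg _) ((norm_nonneg _).trans (hB y p.1))
      refine h5.congr (Filter.Eventually.of_forall fun p => ?_)
      show (K y p.1 * L p.1 p.2) * v p.2 = K y p.1 * (L p.1 p.2 * v p.2)
      ring
    rw [integral_integral_swap hint]
    refine integral_congr_ae (Filter.Eventually.of_forall fun z => ?_)
    show ∫ x, K y x * (L x z * v z) ∂μ = (∫ x, K y x * L x z ∂μ) * v z
    rw [← integral_mul_const]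
    refine integral_congr_ae (Filter.Eventually.of_forall fun x => ?_)
    show K y x * (L x z * v z) = K y x * L x z * v z
    ring
  · intro K L T S hK hKB hL hLB hT hS v
    filter_upwards [hT v, hS v, Lp.coeFn_sub (T v) (S v)] with y h1 h2 h3
    rw [ContinuousLinearMap.sub_apply, h3, Pi.sub_apply, h1, h2,
      ← integral_sub (KO_int (K y) (KO_row K hK y) (KO_rowB K hKB y) v) (KO_int (L y) (KO_row L hL y) (KO_rowB L hLB y) v)]
    refine integral_congr_ae (Filter.Eventually.of_forall fun z => ?_)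
    show K y z * v z - L y z * v z = (K y z - L y z) * v z
    ring
  · intro m hm hB
    exact KO2_mul m hm hB
  · intro K T M m hK hKB hm hmB hT hM
    constructor
    · intro v
      filter_upwards [hM (T v), hT v] with y h1 h2
      rw [ContinuousLinearMap.mul_apply, h1, h2, ← integral_const_mul]
      refine integral_congr_ae (Filter.Eventually.of_forall fun z => ?_)
      show m y * (K y z * v z) = m y * K y z * v z
      ring
    · intro v
      filter_upwards [hT (M v)] with y h1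
      rw [ContinuousLinearMap.mul_apply, h1]
      refine integral_congr_ae ?_
      filter_upwards [hM v] with z hz
      rw [hz]
      ring
  · intro A P hA hP
    refine ⟨⟨?_, ?_⟩, ?_⟩
    · intro v
      refine Lp.ext ?_
      filter_upwards [hP (P v), hP v] with y h1 h2
      rw [h1, h2]
      by_cases hy : y ∈ A
      · rw [Set.indicator_of_mem hy]
        ring
      · rw [Set.indicator_of_notMem hy]
        ring
    · intro v w
      rw [L2.inner_def, L2.inner_def]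
      refine integral_congr_ae ?_
      filter_upwards [hP v, hP w] with y h1 h2
      rw [h1, h2]
      by_cases hy : y ∈ A
      · rw [Set.indicator_of_mem hy, one_mul, one_mul]
      · rw [Set.indicator_of_notMem hy, zero_mul, zero_mul, inner_zero_left, inner_zero_right]
    · intro v
      rw [KO_norm, ← integral_indicator hA]
      refine integral_congr_ae ?_
      filter_upwards [hP v] with y h1
      rw [h1]
      by_cases hy : y ∈ A
      · rw [Set.indicator_of_mem hy, Set.indicator_of_mem hy, one_mul]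
      · rw [Set.indicator_of_notMem hy, Set.indicator_of_notMem hy, zero_mul, norm_zero]
        norm_num

theorem KO3_proof : KO3_stmt := by
  intro Y _ μ _ K T C hC hK hB hT h
  refine ContinuousLinearMap.opNorm_le_bound _ hC fun v => ?_
  refine DenseRange.induction_on (e := ((↑) : Lp.simpleFunc ℂ 2 μ → Lp ℂ 2 μ)) (Lp.simpleFunc.denseRange (by norm_num)) v ?_ ?_
  · exact isClosed_le (T.continuous.norm) (continuous_const.mul continuous_norm)
  · intro f
    obtain ⟨B', hB'⟩ := (Lp.simpleFunc.toSimpleFunc f).exists_forall_norm_le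
    have hfe : (Lp.simpleFunc.toSimpleFunc f : Y → ℂ) =ᵐ[μ] ((f : Lp ℂ 2 μ) : Y → ℂ) := Lp.simpleFunc.toSimpleFunc_eq_toFun f
    have h1 := h (Lp.simpleFunc.toSimpleFunc f) (Lp.simpleFunc.toSimpleFunc f).measurable ⟨B', hB'⟩
    refine le_of_sq_le_sq ?_ (by positivity)
    have h2 : ‖T (f : Lp ℂ 2 μ)‖ ^ 2 = ∫ y, ‖∫ z, K y z * (Lp.simpleFunc.toSimpleFunc f) z ∂μ‖ ^ 2 ∂μ := by
      rw [KO_norm]
      refine integral_congr_ae ?_
      filter_upwards [hT (f : Lp ℂ 2 μ)] with y hy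
      rw [hy]
      have h3 : ∫ z, K y z * (f : Lp ℂ 2 μ) z ∂μ = ∫ z, K y z * (Lp.simpleFunc.toSimpleFunc f) z ∂μ := by
        refine integral_congr_ae ?_
        filter_upwards [hfe] with z hz
        rw [hz]
      rw [h3]
    have h4 : ‖(f : Lp ℂ 2 μ)‖ ^ 2 = ∫ y, ‖(Lp.simpleFunc.toSimpleFunc f) y‖ ^ 2 ∂μ := by
      rw [KO_norm]
      refine integral_congr_ae ?_
      filter_upwards [hfe] with z hz
      rw [hz]
    rw [h2, mul_pow, h4]
    exact h1

end

end Pool.Agent.RPQ
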