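import Pool.Agent.helper11.RPQ.SpecA
import Pool.Agent.helper62.RS.All

/-!
# MP_07c750, project RPQ, row KPG (kernels on `Γ \ G`: unfolding)
-/

set_option autoImplicit false

open scoped MatrixGroups ContDiff Topology UpperHalfPlane ComplexConjugate
open UpperHalfPlane MeasureTheory Filter Set

namespace Pool.Agent.RPQ

open Pool.Agent.RS
open Pool.Agent.MS (BA BB st pf gk Dk amk)

theorem KPG_cnt {Γ : Subgroup SL(2, ℝ)} (hΓ : QU.SurfaceGroup Γ) (D : ℝ) : ∃ n : ℕ, ∀ g h : SL(2, ℝ),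
    {γ : Γ | dist (g • I : ℍ) (((γ : SL(2, ℝ)) * h) • I) ≤ D}.Finite ∧
    {γ : Γ | dist (g • I : ℍ) (((γ : SL(2, ℝ)) * h) • I) ≤ D}.ncard ≤ n := by
  obtain ⟨n, hn⟩ := GPE_count Γ hΓ (Metric.closedBall I D) (isCompact_closedBall I D)
  refine ⟨n, fun g h => ?_⟩
  have h1 := hn g (h • I)
  have e : {γ : Γ | dist (g • I : ℍ) (((γ : SL(2, ℝ)) * h) • I) ≤ D} =
      {γ : Γ | g⁻¹ • ((γ : SL(2, ℝ)) • (h • I)) ∈ Metric.closedBall I D} := by
    ext γ
    simp only [mem_ofPred_eq, Metric.mem_closedBall]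
    rw [mul_smul, dist_comm (g • I)]
    have h4 := dist_smul g⁻¹ ((γ : SL(2, ℝ)) • (h • I)) (g • I)
    rw [inv_smul_smul] at h4
    rw [h4]
  rw [e]
  exact h1

theorem KPG_cI : Continuous fun g : SL(2, ℝ) => g • I := isProperMap_smul_I.continuous

theorem KPG_ballm (g : SL(2, ℝ)) (D : ℝ) : MeasurableSet {p : SL(2, ℝ) | dist (g • I : ℍ) (p • I) ≤ D} := by
  apply IsClosed.measurableSet
  exact isClosed_le (continuous_const.dist KPG_cI) continuous_const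

theorem KPG_ball (D : ℝ) : ∃ C : ENNReal, C < ⊤ ∧
    ∀ g : SL(2, ℝ), mG {p : SL(2, ℝ) | dist (g • I : ℍ) (p • I) ≤ D} = C := by
  refine ⟨mG {p : SL(2, ℝ) | dist ((1 : SL(2, ℝ)) • I : ℍ) (p • I) ≤ D}, ?_, fun g => ?_⟩
  · apply A_GMG.2.1
    have h1 := A_GLC.2.2.1 (Metric.closedBall I D) (isCompact_closedBall I D)
    have e : {p : SL(2, ℝ) | dist ((1 : SL(2, ℝ)) • I : ℍ) (p • I) ≤ D} = {p : SL(2, ℝ) | p • I ∈ Metric.closedBall I D} := by
      ext p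
      simp only [mem_ofPred_eq, Metric.mem_closedBall, one_smul]
      rw [dist_comm]
    rw [e]
    exact h1
  · have h1 := A_GLI g⁻¹
    have h2 : Measure.map (fun p => g⁻¹ * p) mG {p : SL(2, ℝ) | dist ((1 : SL(2, ℝ)) • I : ℍ) (p • I) ≤ D} =
        mG {p : SL(2, ℝ) | dist ((1 : SL(2, ℝ)) • I : ℍ) (p • I) ≤ D} := by rw [h1]
    rw [Measure.map_apply (continuous_const_mul _).measurable (KPG_ballm 1 D)] at h2
    rw [← h2]
    congr 1
    ext p
    simp only [mem_ofPred_eq, mem_preimage, one_smul]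
    rw [mul_smul]
    have h4 := dist_smul g⁻¹ (g • I) (p • I)
    rw [inv_smul_smul] at h4
    rw [h4]

theorem KPG_int {f : SL(2, ℝ) → ℂ} (hf : Measurable f) {B D : ℝ} (hB : ∀ h, ‖f h‖ ≤ B) (g : SL(2, ℝ))
    (hs : ∀ h, f h ≠ 0 → dist (g • I : ℍ) (h • I) ≤ D) : Integrable f mG := by
  obtain ⟨C, hC, hCe⟩ := KPG_ball D
  have h1 : IntegrableOn f {p : SL(2, ℝ) | dist (g • I : ℍ) (p • I) ≤ D} mG := by
    apply Measure.integrableOn_of_bounded (M := B)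
    · rw [hCe g]
      exact hC.ne
    · exact hf.aestronglyMeasurable
    · exact Eventually.of_forall hB
  apply h1.integrable_of_forall_notMem_eq_zero
  intro x hx
  by_contra h
  exact hx (hs x h)

theorem KPG_bd {f : SL(2, ℝ) → ℂ} {B D : ℝ} (hB : ∀ h, ‖f h‖ ≤ B) (g : SL(2, ℝ))
    (hs : ∀ h, f h ≠ 0 → dist (g • I : ℍ) (h • I) ≤ D) :
    ‖∫ h, f h ∂mG‖ ≤ B * (mG {p : SL(2, ℝ) | dist ((1 : SL(2, ℝ)) • I : ℍ) (p • I) ≤ D}).toReal := by
  obtain ⟨C, hC, hCe⟩ := KPG_ball D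
  have h1 : ∫ h in {p : SL(2, ℝ) | dist (g • I : ℍ) (p • I) ≤ D}, f h ∂mG = ∫ h, f h ∂mG := by
    apply setIntegral_eq_integral_of_forall_compl_eq_zero
    intro x hx
    by_contra h
    exact hx (hs x h)
  rw [← h1, hCe 1, ← hCe g]
  apply norm_setIntegral_le_of_norm_le_const
  · rw [hCe g]
    exact hC
  · exact fun x _ => hB x

/-- left invariance -/
theorem KPG_left (f : SL(2, ℝ) → ℂ) (g : SL(2, ℝ)) : ∫ h, f (g * h) ∂mG = ∫ h, f h ∂mG := by
  have hmp : MeasurePreserving (fun h : SL(2, ℝ) => g * h) mG mG :=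
    ⟨(continuous_const_mul g).measurable, A_GLI g⟩
  have hemb : MeasurableEmbedding (fun h : SL(2, ℝ) => g * h) :=
    (Homeomorph.mulLeft g).measurableEmbedding
  exact hmp.integral_comp hemb f

theorem KPG_sum {Γ : Subgroup SL(2, ℝ)} (hΓ : QU.SurfaceGroup Γ) {K : SL(2, ℝ) → SL(2, ℝ) → ℂ} {D : ℝ}
    (hD : ∀ g h, K g h ≠ 0 → dist (g • I : ℍ) (h • I) ≤ D) (g h : SL(2, ℝ)) :
    (Function.support fun γ : Γ => K g ((γ : SL(2, ℝ)) * h)).Finite := by
  obtain ⟨n, hn⟩ := KPG_cnt hΓ D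
  exact (hn g h).1.subset fun γ hγ => hD _ _ hγ

theorem KPG_meas {Γ : Subgroup SL(2, ℝ)} (hΓ : QU.SurfaceGroup Γ) (hc : Countable Γ)
    {K : SL(2, ℝ) → SL(2, ℝ) → ℂ} (hK : GKer Γ K) : Measurable (Function.uncurry (perK Γ K)) := by
  obtain ⟨D, hD⟩ := hK.range
  have h1 : Tendsto (fun s : Finset Γ => fun p : SL(2, ℝ) × SL(2, ℝ) => ∑ γ ∈ s, K p.1 ((γ : SL(2, ℝ)) * p.2)) atTop
      (𝓝 (Function.uncurry (perK Γ K))) := by
    rw [tendsto_pi_nhds]
    rintro ⟨g, h⟩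
    have h2 := KPG_sum hΓ hD g h
    have h3 : Function.uncurry (perK Γ K) (g, h) = ∑ γ ∈ h2.toFinset, K g ((γ : SL(2, ℝ)) * h) := by
      simp only [Function.uncurry, perK]
      exact finsum_eq_sum_of_support_subset _ (by simp)
    rw [h3]
    apply tendsto_atTop_of_eventually_const (i₀ := h2.toFinset)
    intro s hs
    symm
    apply Finset.sum_subset hs
    intro γ _ hγ
    simpa using hγ
  refine measurable_of_tendsto_metrizable' atTop (fun s => ?_) h1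
  apply Finset.measurable_sum
  intro γ _
  have h4 : Measurable (fun p : SL(2, ℝ) × SL(2, ℝ) => (p.1, (γ : SL(2, ℝ)) * p.2)) :=
    measurable_fst.prodMk ((continuous_const_mul _).measurable.comp measurable_snd)
  exact hK.meas.comp h4

theorem KPG_bdd {Γ : Subgroup SL(2, ℝ)} (hΓ : QU.SurfaceGroup Γ) {K : SL(2, ℝ) → SL(2, ℝ) → ℂ} (hK : GKer Γ K) :
    ∃ B : ℝ, ∀ g h, ‖perK Γ K g h‖ ≤ B := by
  obtain ⟨D, hD⟩ := hK.range
  obtain ⟨B, hB⟩ := hK.bdd
  obtain ⟨n, hn⟩ := KPG_cnt hΓ D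
  have hB0 : 0 ≤ B := (norm_nonneg _).trans (hB 1 1)
  refine ⟨n * B, fun g h => ?_⟩
  have h2 := hn g h
  have h3 : perK Γ K g h = ∑ γ ∈ h2.1.toFinset, K g ((γ : SL(2, ℝ)) * h) := by
    simp only [perK]
    apply finsum_eq_sum_of_support_subset
    intro γ hγ
    simp only [Finite.coe_toFinset]
    exact hD _ _ hγ
  rw [h3]
  refine (norm_sum_le _ _).trans ((Finset.sum_le_card_nsmul _ _ B fun γ _ => hB _ _).trans ?_)
  rw [nsmul_eq_mul]
  refine mul_le_mul_of_nonneg_right ?_ hB0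
  rw [← Set.ncard_eq_toFinset_card _ h2.1]
  exact_mod_cast h2.2

theorem KPG_inv {Γ : Subgroup SL(2, ℝ)} {K : SL(2, ℝ) → SL(2, ℝ) → ℂ} (hK : GKer Γ K) (γ : Γ) (g h : SL(2, ℝ)) :
    perK Γ K ((γ : SL(2, ℝ)) * g) h = perK Γ K g h ∧ perK Γ K g ((γ : SL(2, ℝ)) * h) = perK Γ K g h := by
  constructor
  · unfold perK
    rw [← finsum_comp_equiv (Equiv.mulLeft γ) (f := fun σ : Γ => K ((γ : SL(2, ℝ)) * g) ((σ : SL(2, ℝ)) * h))]
    refine finsum_congr fun σ => ?_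
    have h1 : ((Equiv.mulLeft γ σ : Γ) : SL(2, ℝ)) * h = (γ : SL(2, ℝ)) * ((σ : SL(2, ℝ)) * h) := by
      rw [← mul_assoc]
      rfl
    rw [h1]
    exact hK.inv γ g _
  · unfold perK
    rw [← finsum_comp_equiv (Equiv.mulRight γ) (f := fun σ : Γ => K g ((σ : SL(2, ℝ)) * h))]
    refine finsum_congr fun σ => ?_
    have h1 : (σ : SL(2, ℝ)) * ((γ : SL(2, ℝ)) * h) = ((Equiv.mulRight γ σ : Γ) : SL(2, ℝ)) * h := by
      rw [← mul_assoc]
      rfl
    rw [h1]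

theorem KPG_fd {Γ : Subgroup SL(2, ℝ)} {F : Set ℍ} (hF : QU.NiceDom Γ F) : IsFundamentalDomain Γ (dG F) mG := by
  have f2 := GFD_fund A_GLC A_GMG Γ F hF 1
  have e3 : (fun g : SL(2, ℝ) => g * 1) ⁻¹' dG F = dG F := by
    ext g
    simp only [mem_preimage, mul_one]
  rw [e3] at f2
  exact f2

theorem KPG_unf {Γ : Subgroup SL(2, ℝ)} {F : Set ℍ} (hΓ : QU.SurfaceGroup Γ) (hF : QU.NiceDom Γ F)
    {K : SL(2, ℝ) → SL(2, ℝ) → ℂ} (hK : GKer Γ K) (v : SL(2, ℝ) → ℂ) (hv : Measurable v) {Bv : ℝ} (hBv : ∀ g, ‖v g‖ ≤ Bv)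
    (hvi : ∀ (γ : Γ) g, v ((γ : SL(2, ℝ)) * g) = v g) (g : SL(2, ℝ)) :
    ∫ h in dG F, perK Γ K g h * v h ∂mG = ∫ h, K g h * v h ∂mG := by
  haveI := A_GLC.2.1
  haveI := GFD_inv A_GLC A_GLI Γ
  haveI : Countable Γ := (QU.A_DOB Γ F hΓ hF).1
  have hfd := KPG_fd hF
  obtain ⟨D, hD⟩ := hK.range
  obtain ⟨B, hB⟩ := hK.bdd
  have hB0 : 0 ≤ B := (norm_nonneg _).trans (hB 1 1)
  have hBv0 : 0 ≤ Bv := (norm_nonneg _).trans (hBv 1)
  have hKg : Measurable (fun h => K g h) := hK.meas.comp (measurable_const.prodMk measurable_id)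
  have hint : Integrable (fun h => K g h * v h) mG := by
    refine KPG_int (B := B * Bv) (D := D) (hKg.mul hv) (fun h => ?_) g (fun h hh => hD g h (left_ne_zero_of_mul hh))
    rw [norm_mul]
    exact mul_le_mul (hB _ _) (hBv _) (norm_nonneg _) hB0
  have h1 := hfd.integral_eq_tsum'' _ hint
  rw [h1]
  have hm : ∀ γ : Γ, Measurable (fun h => K g (γ • h) * v (γ • h)) := by
    intro γ
    have h2 : Measurable (fun h : SL(2, ℝ) => γ • h) := (continuous_const_mul (γ : SL(2, ℝ))).measurable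
    exact (hKg.comp h2).mul (hv.comp h2)
  have h3 : ∑' γ : Γ, ∫ h in dG F, K g (γ • h) * v (γ • h) ∂mG =
      ∫ h in dG F, ∑' γ : Γ, K g (γ • h) * v (γ • h) ∂mG := by
    symm
    apply integral_tsum
    · exact fun γ => (hm γ).aestronglyMeasurable
    · have h4 := hfd.lintegral_eq_tsum'' (fun h => ‖K g h * v h‖ₑ)
      rw [← h4]
      exact hint.2.ne
  rw [h3]
  apply setIntegral_congr_fun (A_GMG.1 F hF.meas).1
  intro h _
  have hfin := KPG_sum hΓ hD g h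
  have h5 : ∀ γ : Γ, K g (γ • h) * v (γ • h) = K g ((γ : SL(2, ℝ)) * h) * v h := by
    intro γ
    have h6 : v (γ • h) = v h := hvi γ h
    rw [h6]
    rfl
  simp only [h5]
  rw [tsum_mul_right]
  congr 1
  simp only [perK]
  exact (tsum_eq_finsum hfin).symm

theorem KPG_cmp {Γ : Subgroup SL(2, ℝ)} {K L : SL(2, ℝ) → SL(2, ℝ) → ℂ} (hK : GKer Γ K) (hL : GKer Γ L) :
    GKer Γ (cmp K L) := by
  haveI := A_GLC.2.1
  haveI : SigmaFinite mG := A_GMG.2.2.1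
  obtain ⟨D, hD⟩ := hK.range
  obtain ⟨B, hB⟩ := hK.bdd
  obtain ⟨D', hD'⟩ := hL.range
  obtain ⟨B', hB'⟩ := hL.bdd
  have hB0 : 0 ≤ B := (norm_nonneg _).trans (hB 1 1)
  refine ⟨?_, ⟨B * B' * (mG {p : SL(2, ℝ) | dist ((1 : SL(2, ℝ)) • I : ℍ) (p • I) ≤ D}).toReal, fun g h => ?_⟩, ?_, ?_⟩
  · have h1 : Measurable (fun q : (SL(2, ℝ) × SL(2, ℝ)) × SL(2, ℝ) => K q.1.1 q.2 * L q.2 q.1.2) := by
      have h2 : Measurable (fun q : (SL(2, ℝ) × SL(2, ℝ)) × SL(2, ℝ) => K q.1.1 q.2) :=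
        hK.meas.comp ((measurable_fst.comp measurable_fst).prodMk measurable_snd)
      have h3 : Measurable (fun q : (SL(2, ℝ) × SL(2, ℝ)) × SL(2, ℝ) => L q.2 q.1.2) :=
        hL.meas.comp (measurable_snd.prodMk (measurable_snd.comp measurable_fst))
      exact h2.mul h3
    have h4 : StronglyMeasurable (fun q : SL(2, ℝ) × SL(2, ℝ) => ∫ p, K q.1 p * L p q.2 ∂mG) :=
      h1.stronglyMeasurable.integral_prod_right
    exact h4.measurable
  · apply KPG_bd (fun p => ?_) g (fun p hp => hD g p (left_ne_zero_of_mul hp))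
    rw [norm_mul]
    exact mul_le_mul (hB _ _) (hB' _ _) (norm_nonneg _) hB0
  · intro γ g h
    unfold cmp
    rw [← KPG_left _ (γ : SL(2, ℝ))]
    simp only [hK.inv, hL.inv]
  · refine ⟨D + D', fun g h hgh => ?_⟩
    have h1 : ∃ p, K g p * L p h ≠ 0 := by
      by_contra h2
      push Not at h2
      apply hgh
      unfold cmp
      simp only [h2, integral_zero]
    obtain ⟨p, hp⟩ := h1
    have h3 := hD g p (left_ne_zero_of_mul hp)
    have h4 := hD' p h (right_ne_zero_of_mul hp)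
    exact (dist_triangle _ (p • I) _).trans (add_le_add h3 h4)

theorem KPG_cmp2 {Γ : Subgroup SL(2, ℝ)} {F : Set ℍ} (hΓ : QU.SurfaceGroup Γ) (hF : QU.NiceDom Γ F)
    {K L : SL(2, ℝ) → SL(2, ℝ) → ℂ} (hK : GKer Γ K) (hL : GKer Γ L) (g h : SL(2, ℝ)) :
    perK Γ (cmp K L) g h = ∫ p in dG F, perK Γ K g p * perK Γ L p h ∂mG := by
  haveI := A_GLC.2.1
  haveI : SigmaFinite mG := A_GMG.2.2.1
  have hc : Countable Γ := (QU.A_DOB Γ F hΓ hF).1
  have hcmp := KPG_cmp hK hL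
  obtain ⟨D, hD⟩ := hK.range
  obtain ⟨B, hB⟩ := hK.bdd
  obtain ⟨D', hD'⟩ := hL.range
  obtain ⟨B', hB'⟩ := hL.bdd
  obtain ⟨B'', hB''⟩ := KPG_bdd hΓ hL
  have hB0 : 0 ≤ B := (norm_nonneg _).trans (hB 1 1)
  have hLm : Measurable (fun p => perK Γ L p h) := (KPG_meas hΓ hc hL).comp (measurable_id.prodMk measurable_const)
  rw [KPG_unf hΓ hF hK (fun p => perK Γ L p h) hLm (fun p => hB'' p h) (fun γ p => (KPG_inv hL γ p h).1) g]
  obtain ⟨n, hn⟩ := KPG_cnt hΓ (D + D')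
  have hS := (hn g h).1
  have hz : ∀ γ : Γ, γ ∉ hS.toFinset → ∀ p, K g p * L p ((γ : SL(2, ℝ)) * h) = 0 := by
    intro γ hγ p
    by_contra h0
    apply hγ
    rw [Set.Finite.mem_toFinset]
    have h3 := hD g p (left_ne_zero_of_mul h0)
    have h4 := hD' p _ (right_ne_zero_of_mul h0)
    exact (dist_triangle _ (p • I) _).trans (add_le_add h3 h4)
  have h1 : perK Γ (cmp K L) g h = ∑ γ ∈ hS.toFinset, cmp K L g ((γ : SL(2, ℝ)) * h) := by
    unfold perK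
    apply finsum_eq_sum_of_support_subset
    intro γ hγ
    by_contra h2
    apply hγ
    have h3 := hz γ (by simpa using h2)
    show cmp K L g ((γ : SL(2, ℝ)) * h) = 0
    unfold cmp
    simp only [h3, integral_zero]
  rw [h1]
  unfold cmp
  rw [← integral_finsetSum]
  · apply integral_congr_ae
    refine Eventually.of_forall fun p => ?_
    show ∑ γ ∈ hS.toFinset, K g p * L p ((γ : SL(2, ℝ)) * h) = K g p * perK Γ L p h
    by_cases hk : K g p = 0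
    · simp [hk]
    · rw [← Finset.mul_sum]
      congr 1
      unfold perK
      symm
      apply finsum_eq_sum_of_support_subset
      intro γ hγ
      by_contra h2
      have h3 := hz γ (by simpa using h2) p
      rcases mul_eq_zero.mp h3 with h4 | h4
      · exact hk h4
      · exact hγ h4
  · intro γ _
    have hKg : Measurable (fun p => K g p) := hK.meas.comp (measurable_const.prodMk measurable_id)
    have hLg : Measurable (fun p => L p ((γ : SL(2, ℝ)) * h)) := hL.meas.comp (measurable_id.prodMk measurable_const)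
    refine KPG_int (B := B * B') (D := D) (hKg.mul hLg) (fun p => ?_) g (fun p hp => hD g p (left_ne_zero_of_mul hp))
    rw [norm_mul]
    exact mul_le_mul (hB _ _) (hB' _ _) (norm_nonneg _) hB0

theorem KPG_proof : KPG_stmt := by
  intro Γ F hΓ hF
  have hc : Countable Γ := (QU.A_DOB Γ F hΓ hF).1
  haveI := A_GLC.2.1
  refine ⟨fun K hK => ⟨KPG_meas hΓ hc hK, KPG_bdd hΓ hK, fun γ g h => KPG_inv hK γ g h, ?_⟩, fun K L hK hL =>
    ⟨KPG_cmp hK hL, fun g h => KPG_cmp2 hΓ hF hK hL g h⟩⟩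
  rintro v hv ⟨Bv, hBv⟩ hvi g
  exact KPG_unf hΓ hF hK v hv hBv hvi g

end Pool.Agent.RPQ
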