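import Pool.Agent.helper11.RPQ.SpecA
import Pool.Agent.helper62.RS.All

/-!
# MP_07c750, project RPQ, row KPS (the kernels of the steps)
-/

set_option autoImplicit false

open scoped MatrixGroups ContDiff Topology UpperHalfPlane ComplexConjugate
open UpperHalfPlane MeasureTheory Filter Set

namespace Pool.Agent.RPQ

open Pool.Agent.RS
open Pool.Agent.MS (BA BB st pf gk Dk amk)

theorem KPS_th (V : ℍ → ℝ) (hV : Continuous V) (κ t : ℝ) : Continuous (th V κ t) := by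
  haveI := A_GLC.1
  haveI := A_GLC.2.1
  have hI : Continuous fun g : SL(2, ℝ) => g • I := isProperMap_smul_I.continuous
  have ha : Continuous aM := A_GLC.2.2.2.1
  unfold th
  apply Continuous.mul continuous_const
  apply intervalIntegral.continuous_parametric_intervalIntegral_of_continuous'
  have h1 : Continuous (fun p : SL(2, ℝ) × ℝ => V ((p.1 * aM p.2) • I)) :=
    hV.comp (hI.comp (continuous_fst.mul (ha.comp continuous_snd)))
  exact h1

theorem KPS_thi {Γ : Subgroup SL(2, ℝ)} (V : ℍ → ℝ) (hV : ∀ (γ : Γ) (z : ℍ), V (γ • z) = V z) (κ t : ℝ) (γ : Γ)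
    (g : SL(2, ℝ)) : th V κ t ((γ : SL(2, ℝ)) * g) = th V κ t g := by
  unfold th
  congr 1
  apply intervalIntegral.integral_congr
  intro s _
  show V (((γ : SL(2, ℝ)) * g * aM s) • I) = V ((g * aM s) • I)
  rw [mul_assoc, mul_smul]
  exact hV γ _

theorem KPS_dist (D : ℝ) : ∃ D' : ℝ, ∀ b : SL(2, ℝ), (∀ i j, |b.1 i j| ≤ D) → dist (I : ℍ) (b • I) ≤ D' := by
  have hI : Continuous fun g : SL(2, ℝ) => g • I := isProperMap_smul_I.continuous
  have hK : IsCompact {b : SL(2, ℝ) | ∀ i j, |b.1 i j| ≤ D} := by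
    have h1 : Topology.IsClosedEmbedding (fun b : SL(2, ℝ) => b.1) := Matrix.SpecialLinearGroup.isClosedEmbedding_val
    have h2 : IsCompact {m : Matrix (Fin 2) (Fin 2) ℝ | ∀ i j, |m i j| ≤ D} := by
      have h3 : IsCompact (Set.pi Set.univ (fun _ : Fin 2 => Set.pi Set.univ (fun _ : Fin 2 => Icc (-D) D))) :=
        isCompact_univ_pi fun _ => isCompact_univ_pi fun _ => isCompact_Icc
      have h4 : {m : Matrix (Fin 2) (Fin 2) ℝ | ∀ i j, |m i j| ≤ D} =
          Set.pi Set.univ (fun _ : Fin 2 => Set.pi Set.univ (fun _ : Fin 2 => Icc (-D) D)) := by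
        ext m
        constructor
        · intro hm i _ j _
          exact abs_le.mp (hm i j)
        · intro hm i j
          exact abs_le.mpr (hm i trivial j trivial)
      rw [h4]
      exact h3
    exact h1.isCompact_preimage h2
  obtain ⟨M, hM⟩ := hK.bddAbove_image (f := fun b : SL(2, ℝ) => dist (I : ℍ) (b • I)) (continuous_const.dist hI).continuousOn
  exact ⟨M, fun b hb => hM (mem_image_of_mem _ hb)⟩

theorem KPS_stK {Γ : Subgroup SL(2, ℝ)} {V : ℍ → ℝ} (κ t : ℝ) {u : SL(2, ℝ) → ℂ} (hV : QU.Inv Γ V) (hu : Measurable u)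
    (hB : ∃ B : ℝ, ∀ b, ‖u b‖ ≤ B) (hD : ∃ D : ℝ, ∀ b, u b ≠ 0 → ∀ i j, |b.1 i j| ≤ D) : GKer Γ (stK V κ t u) := by
  haveI := A_GLC.2.1
  obtain ⟨B, hB⟩ := hB
  obtain ⟨D, hD⟩ := hD
  refine ⟨?_, ⟨B, fun g h => ?_⟩, fun γ g h => ?_, ?_⟩
  · have h1 : Measurable (fun p : SL(2, ℝ) × SL(2, ℝ) => Complex.exp (((th V κ t p.1 : ℝ) : ℂ) * Complex.I)) := by
      apply Continuous.measurable
      have := KPS_th V hV.1 κ t
      apply Complex.continuous_exp.comp
      exact (Complex.continuous_ofReal.comp (this.comp continuous_fst)).mul continuous_const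
    have h2 : Measurable (fun p : SL(2, ℝ) × SL(2, ℝ) => (p.1 * aM t)⁻¹ * p.2) := by
      apply Continuous.measurable
      exact (continuous_fst.mul continuous_const).inv.mul continuous_snd
    exact h1.mul (hu.comp h2)
  · unfold stK
    rw [norm_mul, Complex.norm_exp_ofReal_mul_I, one_mul]
    exact hB _
  · unfold stK
    rw [KPS_thi V hV.2 κ t γ g]
    congr 2
    group
  · obtain ⟨D', hD'⟩ := KPS_dist D
    refine ⟨dist (I : ℍ) (aM t • I) + D', fun g h hgh => ?_⟩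
    have h1 : u ((g * aM t)⁻¹ * h) ≠ 0 := right_ne_zero_of_mul hgh
    have h2 := hD' _ (hD _ h1)
    have h3 : dist (g • I : ℍ) ((g * aM t) • I) = dist (I : ℍ) (aM t • I) := by
      rw [mul_smul]
      exact dist_smul g I (aM t • I)
    have h4 : dist ((g * aM t) • I : ℍ) (h • I) = dist (I : ℍ) (((g * aM t)⁻¹ * h) • I) := by
      have h5 := dist_smul (g * aM t) I (((g * aM t)⁻¹ * h) • I)
      rw [← h5, ← mul_smul, mul_inv_cancel_left]
    calc dist (g • I : ℍ) (h • I) ≤ dist (g • I : ℍ) ((g * aM t) • I) + dist ((g * aM t) • I : ℍ) (h • I) :=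
        dist_triangle _ _ _
      _ ≤ dist (I : ℍ) (aM t • I) + D' := by
        rw [h3, h4]
        linarith

theorem KPS_ind {Γ : Subgroup SL(2, ℝ)} {A : Set SL(2, ℝ)} (hAi : ∀ (γ : Γ) (g : SL(2, ℝ)), (γ : SL(2, ℝ)) * g ∈ A ↔ g ∈ A)
    (γ : Γ) (g : SL(2, ℝ)) : A.indicator (fun _ => (1 : ℂ)) ((γ : SL(2, ℝ)) * g) = A.indicator (fun _ => (1 : ℂ)) g := by
  by_cases h : g ∈ A
  · rw [indicator_of_mem h, indicator_of_mem ((hAi γ g).mpr h)]
  · rw [indicator_of_notMem h, indicator_of_notMem (fun h' => h ((hAi γ g).mp h'))]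

theorem KPS_indn (A : Set SL(2, ℝ)) (g : SL(2, ℝ)) : ‖A.indicator (fun _ => (1 : ℂ)) g‖ ≤ 1 := by
  by_cases h : g ∈ A
  · rw [indicator_of_mem h]
    simp
  · rw [indicator_of_notMem h]
    simp

theorem KPS_left {Γ : Subgroup SL(2, ℝ)} {A : Set SL(2, ℝ)} (hA : MeasurableSet A)
    (hAi : ∀ (γ : Γ) (g : SL(2, ℝ)), (γ : SL(2, ℝ)) * g ∈ A ↔ g ∈ A) {K : SL(2, ℝ) → SL(2, ℝ) → ℂ} (hK : GKer Γ K) :
    GKer Γ (fun g h => A.indicator (fun _ => (1 : ℂ)) g * K g h) := by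
  obtain ⟨B, hB⟩ := hK.bdd
  obtain ⟨D, hD⟩ := hK.range
  have hB0 : 0 ≤ B := (norm_nonneg _).trans (hB 1 1)
  refine ⟨?_, ⟨B, fun g h => ?_⟩, fun γ g h => ?_, ⟨D, fun g h hgh => hD g h (right_ne_zero_of_mul hgh)⟩⟩
  · have h1 : Measurable (fun p : SL(2, ℝ) × SL(2, ℝ) => A.indicator (fun _ => (1 : ℂ)) p.1) :=
      (measurable_const.indicator hA).comp measurable_fst
    exact h1.mul hK.meas
  · rw [norm_mul]
    calc _ ≤ 1 * B := mul_le_mul (KPS_indn A g) (hB g h) (norm_nonneg _) (by norm_num)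
      _ = B := one_mul B
  · show A.indicator (fun _ => (1 : ℂ)) ((γ : SL(2, ℝ)) * g) * K ((γ : SL(2, ℝ)) * g) ((γ : SL(2, ℝ)) * h) = _
    rw [KPS_ind hAi, hK.inv]

theorem KPS_right {Γ : Subgroup SL(2, ℝ)} {A : Set SL(2, ℝ)} (hA : MeasurableSet A)
    (hAi : ∀ (γ : Γ) (g : SL(2, ℝ)), (γ : SL(2, ℝ)) * g ∈ A ↔ g ∈ A) {K : SL(2, ℝ) → SL(2, ℝ) → ℂ} (hK : GKer Γ K) :
    GKer Γ (fun g h => K g h * A.indicator (fun _ => (1 : ℂ)) h) := by
  obtain ⟨B, hB⟩ := hK.bdd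
  obtain ⟨D, hD⟩ := hK.range
  have hB0 : 0 ≤ B := (norm_nonneg _).trans (hB 1 1)
  refine ⟨?_, ⟨B, fun g h => ?_⟩, fun γ g h => ?_, ⟨D, fun g h hgh => hD g h (left_ne_zero_of_mul hgh)⟩⟩
  · have h1 : Measurable (fun p : SL(2, ℝ) × SL(2, ℝ) => A.indicator (fun _ => (1 : ℂ)) p.2) :=
      (measurable_const.indicator hA).comp measurable_snd
    exact hK.meas.mul h1
  · rw [norm_mul]
    calc _ ≤ B * 1 := mul_le_mul (hB g h) (KPS_indn A h) (norm_nonneg _) hB0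
      _ = B := mul_one B
  · show K ((γ : SL(2, ℝ)) * g) ((γ : SL(2, ℝ)) * h) * A.indicator (fun _ => (1 : ℂ)) ((γ : SL(2, ℝ)) * h) = _
    rw [KPS_ind hAi, hK.inv]

theorem KPS_proof (hKPG : KPG_stmt) : KPS_stmt := by
  intro Γ F V κ t u A hΓ hF hV hu hB hD hA hAi
  have h0 := KPS_stK κ t hV hu hB hD
  have hc := (hKPG Γ F hΓ hF).2
  have h1 : ∀ n, GKer Γ (itK V κ t u n) := by
    intro n
    induction n with
    | zero => exact h0
    | succ n ih => exact (hc _ _ h0 ih).1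
  refine ⟨h0, h1, ?_⟩
  intro l
  induction l with
  | nil =>
    refine ⟨measurable_const, ⟨0, fun g h => ?_⟩, fun γ g h => rfl, ⟨0, fun g h hgh => absurd rfl hgh⟩⟩
    show ‖(0 : ℂ)‖ ≤ 0
    simp
  | cons n l ih =>
    cases l with
    | nil => exact KPS_right hA hAi (KPS_left hA hAi (h1 n))
    | cons m l => exact (hc _ _ (KPS_left hA hAi (h1 n)) ih).1

end Pool.Agent.RPQ
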