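import Pool.Agent.helper65.RPQ.KPS

/-!
# MP_07c750, project RPQ, row OPW (the norm of a word)
-/

set_option autoImplicit false

open scoped MatrixGroups ContDiff Topology UpperHalfPlane ComplexConjugate
open UpperHalfPlane MeasureTheory Filter Set

namespace Pool.Agent.RPQ

open Pool.Agent.RS
open Pool.Agent.MS (BA BB st pf gk Dk amk)

theorem OPW_left (Γ : Subgroup SL(2, ℝ)) (A : Set SL(2, ℝ)) (K : SL(2, ℝ) → SL(2, ℝ) → ℂ) (g h : SL(2, ℝ)) :
    perK Γ (fun g h => A.indicator (fun _ => (1 : ℂ)) g * K g h) g h = A.indicator (fun _ => (1 : ℂ)) g * perK Γ K g h := by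
  unfold perK
  by_cases hg : g ∈ A
  · simp only [indicator_of_mem hg, one_mul]
  · simp only [indicator_of_notMem hg, zero_mul, finsum_zero]

theorem OPW_right {Γ : Subgroup SL(2, ℝ)} {A : Set SL(2, ℝ)} (hAi : ∀ (γ : Γ) (g : SL(2, ℝ)), (γ : SL(2, ℝ)) * g ∈ A ↔ g ∈ A)
    (K : SL(2, ℝ) → SL(2, ℝ) → ℂ) (g h : SL(2, ℝ)) :
    perK Γ (fun g h => K g h * A.indicator (fun _ => (1 : ℂ)) h) g h = perK Γ K g h * A.indicator (fun _ => (1 : ℂ)) h := by
  unfold perK
  by_cases hg : h ∈ A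
  · simp only [KPS_ind hAi, indicator_of_mem hg, mul_one]
  · simp only [KPS_ind hAi, indicator_of_notMem hg, mul_zero, finsum_zero]

theorem OPW_proof (hKO1 : KO1_stmt) (hKO2 : KO2_stmt) (hKPG : KPG_stmt) (hKPS : KPS_stmt) : OPW_stmt := by
  intro Γ F V κ t u A hΓ hF hV hu hB hD hA hAi T P hT hP l hl
  obtain ⟨h0, h1, h2⟩ := hKPS Γ F V κ t u A hΓ hF hV hu hB hD hA hAi
  obtain ⟨hG1, hG2⟩ := hKPG Γ F hΓ hF
  haveI : IsFiniteMeasure (mG.restrict (dG F)) :=
    isFiniteMeasure_restrict.mpr (A_GFD Γ F hΓ hF).1.2.2.1.ne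
  obtain ⟨c1, -, -, c4, -⟩ := hKO2 SL(2, ℝ) (mG.restrict (dG F))
  have hAm : Measurable (A.indicator (fun _ => (1 : ℂ))) := measurable_const.indicator hA
  have hAb : ∃ B : ℝ, ∀ y, ‖A.indicator (fun _ => (1 : ℂ)) y‖ ≤ B := ⟨1, KPS_indn A⟩
  have hm : ∀ K, GKer Γ K → Measurable (Function.uncurry (perK Γ K)) := fun K hK => (hG1 K hK).1
  have hb : ∀ K, GKer Γ K → ∃ B : ℝ, ∀ y z, ‖perK Γ K y z‖ ≤ B := fun K hK => (hG1 K hK).2.1
  -- composition
  have hcomp : ∀ (K L : SL(2, ℝ) → SL(2, ℝ) → ℂ) (S S' : Lp ℂ 2 (mG.restrict (dG F)) →L[ℂ] Lp ℂ 2 (mG.restrict (dG F))),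
      GKer Γ K → GKer Γ L → IsOp (mG.restrict (dG F)) (perK Γ K) S → IsOp (mG.restrict (dG F)) (perK Γ L) S' →
        IsOp (mG.restrict (dG F)) (perK Γ (cmp K L)) (S * S') := by
    intro K L S S' hK hL hS hS'
    have h3 := c1 _ _ S S' (hm K hK) (hb K hK) (hm L hL) (hb L hL) hS hS'
    have h4 : perK Γ (cmp K L) = fun y z => ∫ x, perK Γ K y x * perK Γ L x z ∂(mG.restrict (dG F)) := by
      funext y z
      exact (hG2 K L hK hL).2 y z
    rw [h4]
    exact h3
  have hpow : ∀ n : ℕ, IsOp (mG.restrict (dG F)) (perK Γ (itK V κ t u n)) (T ^ (n + 1)) := by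
    intro n
    induction n with
    | zero =>
      rw [zero_add, pow_one]
      exact hT
    | succ n ih =>
      rw [pow_succ']
      exact hcomp _ _ _ _ h0 (h1 n) hT ih
  have hlK : ∀ n : ℕ, IsOp (mG.restrict (dG F))
      (perK Γ (fun g h => A.indicator (fun _ => (1 : ℂ)) g * itK V κ t u n g h)) (P * T ^ (n + 1)) := by
    intro n
    have h3 := (c4 _ _ P _ (hm _ (h1 n)) (hb _ (h1 n)) hAm hAb (hpow n) hP).1
    have h4 : perK Γ (fun g h => A.indicator (fun _ => (1 : ℂ)) g * itK V κ t u n g h) =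
        fun y z => A.indicator (fun _ => (1 : ℂ)) y * perK Γ (itK V κ t u n) y z := by
      funext y z
      exact OPW_left Γ A _ y z
    rw [h4]
    exact h3
  have hop : ∀ l : List ℕ, l ≠ [] → IsOp (mG.restrict (dG F)) (perK Γ (wdK V κ t u A l)) (wrd T P l) := by
    intro l
    induction l with
    | nil => exact fun h => absurd rfl h
    | cons n l ih =>
      intro _
      cases l with
      | nil =>
        have hgl := KPS_left hA hAi (h1 n)
        have h3 := (c4 _ _ P _ (hm _ hgl) (hb _ hgl) hAm hAb (hlK n) hP).2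
        have h4 : perK Γ (wdK V κ t u A [n]) = fun y z =>
            perK Γ (fun g h => A.indicator (fun _ => (1 : ℂ)) g * itK V κ t u n g h) y z *
              A.indicator (fun _ => (1 : ℂ)) z := by
          funext y z
          exact OPW_right hAi (fun g h => A.indicator (fun _ => (1 : ℂ)) g * itK V κ t u n g h) y z
        rw [h4]
        exact h3
      | cons m l =>
        exact hcomp _ _ _ _ (KPS_left hA hAi (h1 n)) (h2 (m :: l)) (hlK n) (ih (by simp))
  exact (hKO1 _ _ _ (hm _ (h2 l)) (hb _ (h2 l))).2 _ (hop l hl)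

end Pool.Agent.RPQ
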