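import Pool.Agent.helper98.RPQ.SpecR
import Pool.Agent.helper62.RS.All

/-!
# MP_07c750, project RPQ, row VXI (paths with fixed end points)
-/

set_option autoImplicit false

open scoped MatrixGroups ContDiff Topology UpperHalfPlane ComplexConjugate ENNReal
open UpperHalfPlane MeasureTheory Filter Set

namespace Pool.Agent.RPQ

open Pool.Agent.RS
open Pool.Agent.MS (BA BB st pf gk Dk amk)

theorem VXI_pth (t : ℝ) (w : ℕ → SL(2, ℝ)) (j : ℕ) : pth t (w 0) (ic t w) j = w j := by
  induction j with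
  | zero => rfl
  | succ j ih =>
    show pth t (w 0) (ic t w) j * aM t * ic t w j = w (j + 1)
    rw [ih]
    unfold ic
    rw [mul_inv_cancel_left]

theorem VXI_succ (n : ℕ) (g h : SL(2, ℝ)) (v : Fin (n + 1) → SL(2, ℝ)) (j : ℕ) :
    vx g h v (j + 1) = vx (v 0) h (fun i : Fin n => v i.succ) j := by
  cases j with
  | zero =>
    show (if hj : 0 < n + 1 then v ⟨0, hj⟩ else h) = v 0
    rw [dif_pos (Nat.succ_pos n)]
    rfl
  | succ j =>
    show (if hj : j + 1 < n + 1 then v ⟨j + 1, hj⟩ else h) = if hj : j < n then v (Fin.succ ⟨j, hj⟩) else h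
    by_cases hj : j < n
    · rw [dif_pos hj, dif_pos (Nat.succ_lt_succ hj)]
      rfl
    · rw [dif_neg hj, dif_neg (fun h' => hj (Nat.lt_of_succ_lt_succ h'))]

theorem VXI_last (n : ℕ) (g h : SL(2, ℝ)) (v : Fin n → SL(2, ℝ)) : vx g h v (n + 1) = h := by
  show (if hj : n < n then v ⟨n, hj⟩ else h) = h
  rw [dif_neg (lt_irrefl n)]

theorem VXI_cont (n j : ℕ) : Continuous fun p : (SL(2, ℝ) × SL(2, ℝ)) × (Fin n → SL(2, ℝ)) => vx p.1.1 p.1.2 p.2 j := by
  cases j with
  | zero => exact continuous_fst.comp continuous_fst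
  | succ j =>
    by_cases hj : j < n
    · have h1 : (fun p : (SL(2, ℝ) × SL(2, ℝ)) × (Fin n → SL(2, ℝ)) => vx p.1.1 p.1.2 p.2 (j + 1)) =
          fun p => p.2 ⟨j, hj⟩ := by
        funext p
        show (if hj : j < n then p.2 ⟨j, hj⟩ else p.1.2) = _
        rw [dif_pos hj]
      rw [h1]
      exact (continuous_apply _).comp continuous_snd
    · have h1 : (fun p : (SL(2, ℝ) × SL(2, ℝ)) × (Fin n → SL(2, ℝ)) => vx p.1.1 p.1.2 p.2 (j + 1)) =
          fun p => p.1.2 := by
        funext p
        show (if hj : j < n then p.2 ⟨j, hj⟩ else p.1.2) = _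
        rw [dif_neg hj]
      rw [h1]
      exact continuous_snd.comp continuous_fst

theorem VXI_sf : SigmaFinite mG := A_GMG.2.2.1

theorem VXI_proof : VXI_stmt := by
  haveI := A_GLC.2.1
  haveI : SigmaFinite mG := VXI_sf
  have hsf : ∀ n, SigmaFinite (mP n) := by
    intro n
    unfold mP
    infer_instance
  refine ⟨VXI_pth, VXI_succ, fun n g h v => ⟨rfl, VXI_last n g h v⟩, VXI_cont, fun n j t => ?_, hsf, fun n f hf => ?_,
    fun n f hf => ?_⟩
  · unfold ic
    exact (((VXI_cont n j).mul continuous_const).inv).mul (VXI_cont n (j + 1))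
  · haveI := hsf n
    have h1 := (measurePreserving_piFinSuccAbove (fun _ : Fin (n + 1) => mG) 0).lintegral_comp hf
    rw [lintegral_prod _ hf.aemeasurable] at h1
    exact h1
  · haveI := hsf n
    have h1 := (measurePreserving_piFinSuccAbove (fun _ : Fin (n + 1) => mG) 0).integral_comp
      (MeasurableEquiv.piFinSuccAbove (fun _ : Fin (n + 1) => SL(2, ℝ)) 0).measurableEmbedding f
    have h2 := integral_prod f hf
    rw [← h2]
    exact h1

end Pool.Agent.RPQ
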