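import Pool.Agent.helper98.RPQ.SpecR
import Pool.Agent.helper65.RPQ.KPS

/-!
# MP_07c750, project RPQ, row WDK (words as integrals over paths)
-/

set_option autoImplicit false

open scoped MatrixGroups ContDiff Topology UpperHalfPlane ComplexConjugate ENNReal
open UpperHalfPlane MeasureTheory Filter Set

namespace Pool.Agent.RPQ

open Pool.Agent.RS
open Pool.Agent.MS (BA BB st pf gk Dk amk)

theorem WDK_it (V : ℍ → ℝ) (κ t : ℝ) (u : SL(2, ℝ) → ℂ) (n : ℕ) : itK V κ t u n = pK n (fun _ => stK V κ t u) := by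
  induction n with
  | zero => rfl
  | succ n ih =>
    show cmp (stK V κ t u) (itK V κ t u n) = cmp (stK V κ t u) (pK n (fun _ => stK V κ t u))
    rw [ih]

theorem WDK_congr (a : ℕ) : ∀ s s' : ℕ → SL(2, ℝ) → SL(2, ℝ) → ℂ, (∀ j ≤ a, s j = s' j) → pK a s = pK a s' := by
  induction a with
  | zero =>
    intro s s' h
    exact h 0 le_rfl
  | succ a ih =>
    intro s s' h
    show cmp (s 0) (pK a (fun j => s (j + 1))) = cmp (s' 0) (pK a (fun j => s' (j + 1)))
    rw [h 0 (Nat.zero_le _), ih _ _ (fun j hj => h (j + 1) (Nat.succ_le_succ hj))]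

theorem WDK_gk {Γ : Subgroup SL(2, ℝ)} {A : Set SL(2, ℝ)} (hA : MeasurableSet A)
    (hAi : ∀ (γ : Γ) (g : SL(2, ℝ)), (γ : SL(2, ℝ)) * g ∈ A ↔ g ∈ A) {K : SL(2, ℝ) → SL(2, ℝ) → ℂ} (hK : GKer Γ K)
    (l : List ℕ) (j : ℕ) : GKer Γ (sW A l K j) := by
  unfold sW
  by_cases h1 : j ∈ mks l
  · by_cases h2 : j + 1 = nst l
    · simp only [if_pos h1, if_pos h2]
      exact KPS_right hA hAi (KPS_left hA hAi hK)
    · simp only [if_pos h1, if_neg h2, mul_one]
      exact KPS_left hA hAi hK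
  · by_cases h2 : j + 1 = nst l
    · simp only [if_neg h1, if_pos h2, one_mul]
      exact KPS_right hA hAi hK
    · simp only [if_neg h1, if_neg h2, one_mul, mul_one]
      exact hK

theorem WDK_one (hCAK : CAK_stmt) {Γ : Subgroup SL(2, ℝ)} {F : Set ℍ} (hΓ : QU.SurfaceGroup Γ) (hF : QU.NiceDom Γ F)
    (V : ℍ → ℝ) (κ t : ℝ) (u : SL(2, ℝ) → ℂ) (A : Set SL(2, ℝ)) (hG : GKer Γ (stK V κ t u)) (n : ℕ) (g h : SL(2, ℝ)) :
    wdK V κ t u A [n] g h = pK (nst [n] - 1) (sW A [n] (stK V κ t u)) g h := by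
  have hn : nst [n] - 1 = n := by
    unfold nst
    simp
  rw [hn]
  have h1 := (hCAK Γ F hΓ hF (fun _ => stK V κ t u) (fun _ => hG)).2 n (A.indicator (fun _ => (1 : ℂ)))
    (A.indicator (fun _ => (1 : ℂ))) g h
  have h2 : pK n (sW A [n] (stK V κ t u)) = pK n (fun j g h => (if j = 0 then A.indicator (fun _ => (1 : ℂ)) g else 1) *
      stK V κ t u g h * (if j = n then A.indicator (fun _ => (1 : ℂ)) h else 1)) := by
    apply WDK_congr
    intro j hj
    funext g h
    unfold sW
    have e1 : j ∈ mks [n] ↔ j = 0 := by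
      have : mks [n] = [0, 0 + (n + 1)] := rfl
      rw [this]
      simp only [List.mem_cons, List.not_mem_nil, or_false]
      constructor
      · rintro (h1 | h1)
        · exact h1
        · omega
      · exact Or.inl
    have e2 : j + 1 = nst [n] ↔ j = n := by
      have : nst [n] = n + 1 := by
        unfold nst
        simp
      rw [this]
      omega
    simp only [e1, e2]
  rw [h2, h1, ← WDK_it]
  rfl

theorem WDK_word (hCAK : CAK_stmt) (hMKS : MKS_stmt) {Γ : Subgroup SL(2, ℝ)} {F : Set ℍ} (hΓ : QU.SurfaceGroup Γ)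
    (hF : QU.NiceDom Γ F) (V : ℍ → ℝ) (κ t : ℝ) (u : SL(2, ℝ) → ℂ) {A : Set SL(2, ℝ)} (hA : MeasurableSet A)
    (hAi : ∀ (γ : Γ) (g : SL(2, ℝ)), (γ : SL(2, ℝ)) * g ∈ A ↔ g ∈ A) (hG : GKer Γ (stK V κ t u)) (l : List ℕ) :
    l ≠ [] → wdK V κ t u A l = pK (nst l - 1) (sW A l (stK V κ t u)) := by
  induction l with
  | nil => exact fun h => absurd rfl h
  | cons n l ih =>
    intro _
    cases l with
    | nil =>
      funext g h
      exact WDK_one hCAK hΓ hF V κ t u A hG n g h
    | cons k l =>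
      funext g h
      have ih' := ih (by simp)
      have hl1 : 1 ≤ nst (k :: l) := hMKS.2.1 _ (by simp)
      have hn : nst (n :: k :: l) - 1 = n + 1 + (nst (k :: l) - 1) := by
        have : nst (n :: k :: l) = (n + 1) + nst (k :: l) := by
          unfold nst
          simp
        rw [this]
        omega
      have hw : wdK V κ t u A (n :: k :: l) g h =
          ∫ p, (A.indicator (fun _ => (1 : ℂ)) g * itK V κ t u n g p) * wdK V κ t u A (k :: l) p h ∂mG := rfl
      rw [hw, hn, (hCAK Γ F hΓ hF (sW A (n :: k :: l) (stK V κ t u)) (WDK_gk hA hAi hG _)).1 n (nst (k :: l) - 1) g h]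
      obtain ⟨m1, m2⟩ := hMKS.2.2.2.1 A (stK V κ t u) n (k :: l) (by simp)
      have h2 : (fun j => sW A (n :: k :: l) (stK V κ t u) (n + 1 + j)) = sW A (k :: l) (stK V κ t u) := by
        funext j
        exact m2 j
      rw [h2, ← ih']
      have h3 : ∀ p, pK n (sW A (n :: k :: l) (stK V κ t u)) g p = A.indicator (fun _ => (1 : ℂ)) g * itK V κ t u n g p := by
        intro p
        have h1 := (hCAK Γ F hΓ hF (fun _ => stK V κ t u) (fun _ => hG)).2 n (A.indicator (fun _ => (1 : ℂ)))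
          (fun _ => 1) g p
        have h4 : pK n (sW A (n :: k :: l) (stK V κ t u)) =
            pK n (fun j g h => (if j = 0 then A.indicator (fun _ => (1 : ℂ)) g else 1) *
              stK V κ t u g h * (if j = n then (fun _ => (1 : ℂ)) h else 1)) := by
          apply WDK_congr
          intro j hj
          rw [m1 j hj]
          funext g h
          simp only [ite_self, mul_one]
        rw [h4, h1, ← WDK_it, mul_one]
      simp only [h3]

theorem WDK_proof (hCAK : CAK_stmt) (hUNK : UNK_stmt) (hMKS : MKS_stmt) (hVXI : VXI_stmt) (hKPG : KPG_stmt)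
    (hKPS : KPS_stmt) : WDK_stmt := by
  intro Γ F V κ t u A l hΓ hF hV hu hB hD hA hAi hl g h
  have hG := (hKPS Γ F V κ t u A hΓ hF hV hu hB hD hA hAi).1
  rw [WDK_word hCAK hMKS hΓ hF V κ t u hA hAi hG l hl]
  have h1 := ((hUNK Γ F hΓ hF (sW A l (stK V κ t u)) (WDK_gk hA hAi hG l) (nst l - 1)).2 g h).2
  rw [h1]
  have hl1 : 1 ≤ nst l := hMKS.2.1 _ hl
  have hn : nst l - 1 + 1 = nst l := by omega
  apply integral_congr_ae
  refine Eventually.of_forall fun v => ?_
  show ∏ j ∈ Finset.range (nst l - 1 + 1), sW A l (stK V κ t u) j (vx g h v j) (vx g h v (j + 1)) = _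
  rw [hn, hMKS.2.2.2.2.2 A V u κ t l (vx g h v) hl]
  rfl

end Pool.Agent.RPQ
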