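import Pool.Agent.helper11.RPQ.SpecA

set_option autoImplicit false

namespace Pool.Agent.RPQ

/-- the sequence `v` -/
noncomputable def WL1_v {H : Type} [NormedAddCommGroup H] [InnerProductSpace ℂ H] (V : H →L[ℂ] H) (x : ℕ → H) : ℕ → H
  | 0 => 0
  | k + 1 => x k + V (WL1_v V x k)

theorem WL1_V {H : Type} [NormedAddCommGroup H] [InnerProductSpace ℂ H] (V : H →L[ℂ] H) (x : ℕ → H) (k : ℕ) :
    V (WL1_v V x k) = ∑ j ∈ Finset.range k, (V ^ (k - j)) (x j) := by
  induction k with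
  | zero => simp [WL1_v]
  | succ k ih =>
    rw [WL1_v, map_add, ih, map_sum, Finset.sum_range_succ, add_comm]
    congr 1
    · refine Finset.sum_congr rfl fun j hj => ?_
      have h1 : k + 1 - j = (k - j) + 1 := by
        have := Finset.mem_range.1 hj
        omega
      rw [h1, pow_succ', ContinuousLinearMap.mul_apply]
    · have h1 : k + 1 - k = 1 := by omega
      rw [h1, pow_one]

theorem WL1_adj {H : Type} [NormedAddCommGroup H] [InnerProductSpace ℂ H] [CompleteSpace H] (V : H →L[ℂ] H) (Φ : H) (δ : ℝ)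
    (hV : ‖V‖ ≤ 1) (hΦ : ‖Φ‖ ≤ 1) (hδ : ‖V Φ - Φ‖ ≤ δ) : ‖ContinuousLinearMap.adjoint V Φ - Φ‖ ≤ Real.sqrt (2 * δ) := by
  have hδ0 : 0 ≤ δ := (norm_nonneg _).trans hδ
  refine Real.le_sqrt_of_sq_le ?_
  have h1 := @norm_sub_sq ℂ H _ _ _ (ContinuousLinearMap.adjoint V Φ) Φ
  have h2 : inner ℂ (ContinuousLinearMap.adjoint V Φ) Φ = inner ℂ Φ (V Φ) := ContinuousLinearMap.adjoint_inner_left V Φ Φ
  have h3 : ‖ContinuousLinearMap.adjoint V Φ‖ ≤ ‖Φ‖ := by
    refine (ContinuousLinearMap.le_opNorm _ _).trans ?_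
    have h4 : ‖ContinuousLinearMap.adjoint V‖ = ‖V‖ := LinearIsometryEquiv.norm_map _ _
    rw [h4]
    exact mul_le_of_le_one_left (norm_nonneg _) hV
  have h5 : RCLike.re (inner ℂ Φ (Φ - V Φ)) ≤ δ := by
    refine (RCLike.re_le_norm _).trans ((norm_inner_le_norm _ _).trans ?_)
    rw [norm_sub_rev]
    calc ‖Φ‖ * ‖V Φ - Φ‖ ≤ 1 * δ := mul_le_mul hΦ hδ (norm_nonneg _) zero_le_one
      _ = δ := one_mul _
  have h6 : RCLike.re (inner ℂ Φ (Φ - V Φ)) = ‖Φ‖ ^ 2 - RCLike.re (inner ℂ Φ (V Φ)) := by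
    rw [inner_sub_right, map_sub, ← norm_sq_eq_re_inner]
  rw [h1, h2]
  have h7 : ‖ContinuousLinearMap.adjoint V Φ‖ ^ 2 ≤ ‖Φ‖ ^ 2 := pow_le_pow_left₀ (norm_nonneg _) h3 2
  linarith

theorem WL1_proof : WL1_stmt := by
  intro H _ _ _ V Φ δ n x hV hΦ hδ
  have hδ0 : 0 ≤ δ := (norm_nonneg _).trans hδ
  have hVle : ∀ y, ‖V y‖ ≤ ‖y‖ := fun y => (ContinuousLinearMap.le_opNorm V y).trans (mul_le_of_le_one_left (norm_nonneg _) hV)
  have hQ : ∀ m : ℕ, ‖WL1_v V x m‖ ^ 2 ≤ ∑ k ∈ Finset.range m, ‖x k‖ ^ 2 +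
      2 * (∑ k ∈ Finset.range m, ∑ j ∈ Finset.range k, inner ℂ (x k) ((V ^ (k - j)) (x j))).re := by
    intro m
    induction m with
    | zero => simp [WL1_v]
    | succ m ih =>
      rw [Finset.sum_range_succ, Finset.sum_range_succ, Complex.add_re, WL1_v]
      have h1 := @norm_add_sq ℂ H _ _ _ (x m) (V (WL1_v V x m))
      have h2 : inner ℂ (x m) (V (WL1_v V x m)) = ∑ j ∈ Finset.range m, inner ℂ (x m) ((V ^ (m - j)) (x j)) := by
        rw [WL1_V, inner_sum]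
      have h3 : RCLike.re (inner ℂ (x m) (V (WL1_v V x m))) = (∑ j ∈ Finset.range m, inner ℂ (x m) ((V ^ (m - j)) (x j))).re := by
        rw [h2]
        rfl
      rw [h3] at h1
      have h4 : ‖V (WL1_v V x m)‖ ^ 2 ≤ ‖WL1_v V x m‖ ^ 2 := pow_le_pow_left₀ (norm_nonneg _) (hVle _) 2
      rw [h1]
      linarith
  refine ⟨(sq_nonneg _).trans (hQ n), ?_⟩
  have hnorm : ∀ m : ℕ, ‖WL1_v V x m‖ ≤ ∑ j ∈ Finset.range m, ‖x j‖ := by
    intro m
    induction m with
    | zero => simp [WL1_v]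
    | succ m ih =>
      rw [Finset.sum_range_succ, WL1_v, add_comm]
      exact (norm_add_le _ _).trans (add_le_add ((hVle _).trans ih) le_rfl)
  have hsum : ∀ m : ℕ, ∑ k ∈ Finset.range m, inner ℂ Φ (x k) =
      inner ℂ Φ (WL1_v V x m) - ∑ k ∈ Finset.range m, inner ℂ (ContinuousLinearMap.adjoint V Φ - Φ) (WL1_v V x k) := by
    intro m
    induction m with
    | zero => simp [WL1_v]
    | succ m ih =>
      rw [Finset.sum_range_succ, Finset.sum_range_succ, ih, WL1_v, inner_add_right, inner_sub_left,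
        ContinuousLinearMap.adjoint_inner_left]
      ring
  rw [hsum n]
  refine (norm_sub_le _ _).trans (add_le_add ?_ ?_)
  · refine (norm_inner_le_norm _ _).trans ?_
    refine (mul_le_of_le_one_left (norm_nonneg _) hΦ).trans ?_
    exact Real.le_sqrt_of_sq_le (hQ n)
  · refine (norm_sum_le _ _).trans ?_
    have h1 : ∀ k ∈ Finset.range n, ‖inner ℂ (ContinuousLinearMap.adjoint V Φ - Φ) (WL1_v V x k)‖ ≤
        Real.sqrt (2 * δ) * ∑ k ∈ Finset.range n, ‖x k‖ := by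
      intro k hk
      refine (norm_inner_le_norm _ _).trans (mul_le_mul (WL1_adj V Φ δ hV hΦ hδ) ?_ (norm_nonneg _) (Real.sqrt_nonneg _))
      refine (hnorm k).trans ?_
      refine Finset.sum_le_sum_of_subset_of_nonneg ?_ fun j _ _ => norm_nonneg _
      exact Finset.range_subset_range.2 (Finset.mem_range.1 hk).le
    refine (Finset.sum_le_sum h1).trans (le_of_eq ?_)
    rw [Finset.sum_const, Finset.card_range, nsmul_eq_mul]
    ring

end Pool.Agent.RPQ
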