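import Pool.Agent.helper11.RPQ.SpecA

set_option autoImplicit false

namespace Pool.Agent.RPQ

theorem WL2_sq {H : Type} [NormedAddCommGroup H] [InnerProductSpace ℂ H] (T : H →L[ℂ] H) (z : H)
    (h : 0 ≤ ‖z‖ ^ 2 + 2 * (inner ℂ z (T z)).re) : ‖T z‖ ≤ ‖z + T z‖ := by
  have h1 := @norm_add_sq ℂ H _ _ _ z (T z)
  have h2 : RCLike.re (inner ℂ z (T z)) = (inner ℂ z (T z)).re := rfl
  rw [h2] at h1
  refine le_of_sq_le_sq ?_ (norm_nonneg _)
  rw [h1]
  linarith

theorem WL2_proof : WL2_stmt := by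
  intro H _ _ _ T m L e hT hpos hTL
  -- the inverse of `1 + T`
  obtain ⟨R, hR⟩ : ∃ R : H →L[ℂ] H, R = ∑ i ∈ Finset.range m, (-T) ^ i := ⟨_, rfl⟩
  have hRT : R * T = T * R := by
    rw [hR, Finset.sum_mul, Finset.mul_sum]
    refine Finset.sum_congr rfl fun i _ => ?_
    have hc : Commute ((-T) ^ i) T := ((Commute.refl T).neg_left).pow_left i
    exact hc.eq
  have hm : (-T) ^ m = 0 := by rw [neg_pow, hT, mul_zero]
  have h1 : R * (1 + T) = 1 := by
    have h2 := geom_sum_mul_neg (-T) m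
    rw [hm, sub_zero, sub_neg_eq_add, ← hR] at h2
    exact h2
  have h2 : (1 + T) * R = 1 := by
    have h3 : (1 + T) * R = R * (1 + T) := by rw [add_mul, mul_add, hRT, one_mul, mul_one]
    rw [h3, h1]
  obtain ⟨K, hK⟩ : ∃ K : H →L[ℂ] H, K = T * R := ⟨_, rfl⟩
  have hKn : ‖K‖ ≤ 1 := by
    refine ContinuousLinearMap.opNorm_le_bound _ zero_le_one fun y => ?_
    have h3 : y = R y + T (R y) := by
      have := congrArg (fun A : H →L[ℂ] H => A y) h2
      simpa using this.symm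
    have h4 : K y = T (R y) := by rw [hK]; rfl
    rw [one_mul, h4]
    refine (WL2_sq T (R y) (hpos _)).trans (le_of_eq ?_)
    rw [← h3]
  have hRK : R = 1 - K := by
    have h3 : R + R * T = 1 := by rw [← h1, mul_add, mul_one]
    rw [hK, ← hRT, ← h3, add_sub_cancel_right]
  have hone : ‖(1 : H →L[ℂ] H)‖ ≤ 1 := ContinuousLinearMap.norm_id_le
  have hRn : ‖R‖ ≤ 2 := by
    rw [hRK]
    exact (norm_sub_le _ _).trans (by linarith)
  have hRL : ∀ l : ℕ, ‖R ^ l‖ ≤ 2 ^ l := by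
    intro l
    induction l with
    | zero => simpa using hone
    | succ l ih =>
      rw [pow_succ, pow_succ]
      exact (norm_mul_le _ _).trans (mul_le_mul ih hRn (norm_nonneg _) (by positivity))
  have hKL : ‖K ^ L‖ ≤ 2 ^ L * e := by
    have h3 : K ^ L = T ^ L * R ^ L := by
      have hc : Commute T R := hRT.symm
      rw [hK]
      exact hc.mul_pow L
    rw [h3]
    refine (norm_mul_le _ _).trans ?_
    rw [mul_comm]
    exact mul_le_mul (hRL L) hTL (norm_nonneg _) (by positivity)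
  have hTK : T = K + K * T := by
    have h3 : K * (1 + T) = T := by rw [hK, mul_assoc, h1, mul_one]
    rw [mul_add, mul_one] at h3
    exact h3.symm
  have hind : ∀ l : ℕ, T = ∑ i ∈ Finset.range l, K ^ (i + 1) + K ^ l * T := by
    intro l
    induction l with
    | zero => simp
    | succ l ih =>
      have h3 : K ^ l * T = K ^ (l + 1) + K ^ (l + 1) * T := by
        calc K ^ l * T = K ^ l * (K + K * T) := by rw [← hTK]
          _ = K ^ (l + 1) + K ^ (l + 1) * T := by rw [mul_add, ← mul_assoc, ← pow_succ]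
      rw [Finset.sum_range_succ, add_assoc, ← h3]
      exact ih
  have hsum : ‖∑ i ∈ Finset.range L, K ^ (i + 1)‖ ≤ L := by
    refine (norm_sum_le _ _).trans ?_
    have h3 : ∀ i ∈ Finset.range L, ‖K ^ (i + 1)‖ ≤ 1 := fun i _ =>
      (norm_pow_le' K (Nat.succ_pos i)).trans (pow_le_one₀ (norm_nonneg _) hKn)
    refine (Finset.sum_le_sum h3).trans ?_
    rw [Finset.sum_const, Finset.card_range, nsmul_eq_mul, mul_one]
  calc ‖T‖ = ‖∑ i ∈ Finset.range L, K ^ (i + 1) + K ^ L * T‖ := by rw [← hind L]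
    _ ≤ ‖∑ i ∈ Finset.range L, K ^ (i + 1)‖ + ‖K ^ L * T‖ := norm_add_le _ _
    _ ≤ L + ‖K ^ L‖ * ‖T‖ := add_le_add hsum (norm_mul_le _ _)
    _ ≤ L + 2 ^ L * e * ‖T‖ := by
      have := mul_le_mul_of_nonneg_right hKL (norm_nonneg T)
      linarith

end Pool.Agent.RPQ
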