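import Pool.Agent.helper11.RPQ.SpecA

set_option autoImplicit false

namespace Pool.Agent.RPQ

open Finset

section

variable {H : Type} [NormedAddCommGroup H] [InnerProductSpace ℂ H]

/-- the space of `n` vectors -/
abbrev WRD_E (n : ℕ) (H : Type) [NormedAddCommGroup H] : Type := PiLp 2 (fun _ : Fin n => H)

/-- the operator of a matrix of operators -/
noncomputable def WRD_mat {n : ℕ} (A : Matrix (Fin n) (Fin n) (H →L[ℂ] H)) : WRD_E n H →L[ℂ] WRD_E n H :=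
  ((PiLp.continuousLinearEquiv 2 ℂ (fun _ : Fin n => H)).symm : (Fin n → H) →L[ℂ] WRD_E n H).comp
    ((ContinuousLinearMap.pi fun k => ∑ j, (A k j).comp (ContinuousLinearMap.proj j)).comp
      ((PiLp.continuousLinearEquiv 2 ℂ (fun _ : Fin n => H)) : WRD_E n H →L[ℂ] (Fin n → H)))

theorem WRD_mat_apply {n : ℕ} (A : Matrix (Fin n) (Fin n) (H →L[ℂ] H)) (z : WRD_E n H) (k : Fin n) :
    WRD_mat A z k = ∑ j, A k j (z j) := by
  unfold WRD_mat
  simp [ContinuousLinearMap.sum_apply]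

theorem WRD_mat_mul {n : ℕ} (A B : Matrix (Fin n) (Fin n) (H →L[ℂ] H)) : WRD_mat (A * B) = WRD_mat A * WRD_mat B := by
  refine ContinuousLinearMap.ext fun z => ?_
  refine PiLp.ext fun k => ?_
  rw [WRD_mat_apply, ContinuousLinearMap.mul_apply, WRD_mat_apply]
  have h1 : ∀ j, A k j (WRD_mat B z j) = ∑ i, A k j (B j i (z i)) := by
    intro j
    rw [WRD_mat_apply, map_sum]
  rw [Finset.sum_congr rfl fun j _ => h1 j, Finset.sum_comm]
  refine Finset.sum_congr rfl fun i _ => ?_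
  rw [Matrix.mul_apply, ContinuousLinearMap.sum_apply]
  rfl

theorem WRD_mat_zero {n : ℕ} : WRD_mat (0 : Matrix (Fin n) (Fin n) (H →L[ℂ] H)) = 0 := by
  refine ContinuousLinearMap.ext fun z => ?_
  refine PiLp.ext fun k => ?_
  rw [WRD_mat_apply]
  simp

theorem WRD_mat_pow {n : ℕ} (A : Matrix (Fin n) (Fin n) (H →L[ℂ] H)) (l : ℕ) : WRD_mat (A ^ (l + 1)) = WRD_mat A ^ (l + 1) := by
  induction l with
  | zero => simp
  | succ l ih =>
    rw [pow_succ, WRD_mat_mul, ih]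
    exact (pow_succ (WRD_mat A) (l + 1)).symm

theorem WRD_mat_norm {n : ℕ} (A : Matrix (Fin n) (Fin n) (H →L[ℂ] H)) (c : ℝ) (hc : 0 ≤ c) (hA : ∀ k j, ‖A k j‖ ≤ c) :
    ‖WRD_mat A‖ ≤ n * c := by
  refine ContinuousLinearMap.opNorm_le_bound _ (by positivity) fun z => ?_
  refine le_of_sq_le_sq ?_ (by positivity)
  rw [PiLp.norm_sq_eq_of_L2]
  have h1 : ∀ k : Fin n, ‖WRD_mat A z k‖ ^ 2 ≤ c ^ 2 * (n * ‖z‖ ^ 2) := by
    intro k
    rw [WRD_mat_apply]
    have h2 : ‖∑ j, A k j (z j)‖ ≤ c * ∑ j, ‖z j‖ := by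
      refine (norm_sum_le _ _).trans ?_
      rw [Finset.mul_sum]
      exact Finset.sum_le_sum fun j _ => (ContinuousLinearMap.le_opNorm _ _).trans (mul_le_mul_of_nonneg_right (hA k j) (norm_nonneg _))
    have h3 := sq_sum_le_card_mul_sum_sq (s := (Finset.univ : Finset (Fin n))) (f := fun j => ‖z j‖)
    rw [Finset.card_univ, Fintype.card_fin] at h3
    have h4 : ‖z‖ ^ 2 = ∑ j, ‖z j‖ ^ 2 := PiLp.norm_sq_eq_of_L2 _ _
    rw [h4]
    calc ‖∑ j, A k j (z j)‖ ^ 2 ≤ (c * ∑ j, ‖z j‖) ^ 2 := pow_le_pow_left₀ (norm_nonneg _) h2 2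
      _ = c ^ 2 * (∑ j, ‖z j‖) ^ 2 := by ring
      _ ≤ c ^ 2 * (n * ∑ j, ‖z j‖ ^ 2) := mul_le_mul_of_nonneg_left h3 (by positivity)
  refine (Finset.sum_le_sum fun k _ => h1 k).trans (le_of_eq ?_)
  rw [Finset.sum_const, Finset.card_univ, Fintype.card_fin, nsmul_eq_mul]
  ring

/-- the matrix of the operator `T` -/
noncomputable def WRD_M (V P : H →L[ℂ] H) (n : ℕ) : Matrix (Fin n) (Fin n) (H →L[ℂ] H) :=
  fun k j => if (j : ℕ) < k then P * V ^ ((k : ℕ) - j) * P else 0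

theorem WRD_nil (V P : H →L[ℂ] H) (n l : ℕ) : ∀ k j : Fin n, (k : ℕ) < j + l → (WRD_M V P n ^ l) k j = 0 := by
  induction l with
  | zero =>
    intro k j h
    rw [pow_zero, Matrix.one_apply, if_neg]
    intro he
    rw [he] at h
    omega
  | succ l ih =>
    intro k j h
    rw [pow_succ', Matrix.mul_apply]
    refine Finset.sum_eq_zero fun i _ => ?_
    by_cases hi : (i : ℕ) < k
    · rw [ih i j (by omega), mul_zero]
    · have : WRD_M V P n k i = 0 := if_neg hi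
      rw [this, zero_mul]

theorem WRD_app (V P : H →L[ℂ] H) (hP : P * P = P) (l : List ℕ) (b : ℕ) :
    wrd V P l * (P * V ^ (b + 1) * P) = wrd V P (l ++ [b]) := by
  induction l with
  | nil =>
    show P * (P * V ^ (b + 1) * P) = P * V ^ (b + 1) * P
    rw [← mul_assoc, ← mul_assoc, hP]
  | cons a l ih =>
    show P * V ^ (a + 1) * wrd V P l * (P * V ^ (b + 1) * P) = P * V ^ (a + 1) * wrd V P (l ++ [b])
    rw [← ih]
    simp only [mul_assoc]

theorem WRD_wrdP (V P : H →L[ℂ] H) (hP : P * P = P) (l : List ℕ) : wrd V P l * P = wrd V P l := by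
  induction l with
  | nil => exact hP
  | cons a l ih =>
    show P * V ^ (a + 1) * wrd V P l * P = P * V ^ (a + 1) * wrd V P l
    rw [mul_assoc, ih]

theorem WRD_entry (V P : H →L[ℂ] H) (hP : P * P = P) (n L : ℕ) (δ : ℝ) (hδ : 0 ≤ δ)
    (hW : ∀ l : List ℕ, l.length = L → (∀ b ∈ l, b < n) → ‖wrd V P l‖ ≤ δ) (l : ℕ) :
    ∀ (w : List ℕ), w.length + l = L → (∀ b ∈ w, b < n) → ∀ k j : Fin n, ‖wrd V P w * (WRD_M V P n ^ l) k j‖ ≤ (n : ℝ) ^ l * δ := by
  induction l with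
  | zero =>
    intro w hw hb k j
    rw [pow_zero, pow_zero, one_mul, Matrix.one_apply]
    split_ifs with h
    · rw [mul_one]
      exact hW w (by omega) hb
    · rw [mul_zero, norm_zero]
      exact hδ
  | succ l ih =>
    intro w hw hb k j
    rw [pow_succ' (WRD_M V P n), Matrix.mul_apply, Finset.mul_sum]
    refine (norm_sum_le _ _).trans ?_
    have h1 : ∀ i ∈ (Finset.univ : Finset (Fin n)), ‖wrd V P w * (WRD_M V P n k i * (WRD_M V P n ^ l) i j)‖ ≤ (n : ℝ) ^ l * δ := by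
      intro i _
      by_cases hi : (i : ℕ) < k
      · have h2 : WRD_M V P n k i = P * V ^ (((k : ℕ) - i - 1) + 1) * P := by
          have h3 : (k : ℕ) - i - 1 + 1 = (k : ℕ) - i := by omega
          rw [h3]
          exact if_pos hi
        rw [h2, ← mul_assoc, WRD_app V P hP]
        refine ih _ ?_ ?_ i j
        · rw [List.length_append, List.length_singleton]
          omega
        · intro b hb'
          rcases List.mem_append.1 hb' with h | h
          · exact hb b h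
          · rw [List.mem_singleton.1 h]
            have := k.2
            omega
      · have h2 : WRD_M V P n k i = 0 := if_neg hi
        rw [h2, zero_mul, mul_zero, norm_zero]
        positivity
    refine (Finset.sum_le_sum h1).trans (le_of_eq ?_)
    rw [Finset.sum_const, Finset.card_univ, Fintype.card_fin, nsmul_eq_mul, pow_succ]
    ring

theorem WRD_pow_norm (V P : H →L[ℂ] H) (hP : P * P = P) (n L : ℕ) (hL : 1 ≤ L) (δ : ℝ) (hδ : 0 ≤ δ)
    (hW : ∀ l : List ℕ, l.length = L → (∀ b ∈ l, b < n) → ‖wrd V P l‖ ≤ δ) :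
    ‖WRD_mat (WRD_M V P n) ^ L‖ ≤ n * ((n : ℝ) ^ L * δ) := by
  obtain ⟨l, rfl⟩ : ∃ l, L = l + 1 := ⟨L - 1, by omega⟩
  rw [← WRD_mat_pow]
  refine WRD_mat_norm _ _ (by positivity) fun k j => ?_
  have h1 := WRD_entry V P hP n (l + 1) δ hδ hW (l + 1) [] (by simp) (by simp) k j
  have h2 : wrd V P [] * (WRD_M V P n ^ (l + 1)) k j = (WRD_M V P n ^ (l + 1)) k j := by
    show P * (WRD_M V P n ^ (l + 1)) k j = (WRD_M V P n ^ (l + 1)) k j
    rw [pow_succ', Matrix.mul_apply, Finset.mul_sum]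
    refine Finset.sum_congr rfl fun i _ => ?_
    rw [← mul_assoc]
    congr 1
    unfold WRD_M
    split_ifs
    · rw [← mul_assoc, ← mul_assoc, hP]
    · rw [mul_zero]
  rw [h2] at h1
  exact h1

/-- the vectors `x` of `WL1` for `z` -/
noncomputable def WRD_x {n : ℕ} (P : H →L[ℂ] H) (z : WRD_E n H) : ℕ → H := fun i => if h : i < n then P (z ⟨i, h⟩) else 0

theorem WRD_form (V P : H →L[ℂ] H) (hP : OProj P) (n : ℕ) (z : WRD_E n H) :
    inner ℂ z (WRD_mat (WRD_M V P n) z) =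
      ∑ k ∈ Finset.range n, ∑ j ∈ Finset.range k, inner ℂ (WRD_x P z k) ((V ^ (k - j)) (WRD_x P z j)) := by
  rw [PiLp.inner_apply, Finset.sum_range]
  refine Finset.sum_congr rfl fun k _ => ?_
  rw [WRD_mat_apply, inner_sum]
  have h1 : ∑ j ∈ Finset.range (k : ℕ), inner ℂ (WRD_x P z k) ((V ^ ((k : ℕ) - j)) (WRD_x P z j)) =
      ∑ j ∈ Finset.range n, if j < (k : ℕ) then inner ℂ (WRD_x P z k) ((V ^ ((k : ℕ) - j)) (WRD_x P z j)) else 0 := by
    rw [← Finset.sum_filter]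
    refine Finset.sum_congr ?_ fun _ _ => rfl
    ext j
    rw [Finset.mem_filter, Finset.mem_range, Finset.mem_range]
    have := k.2
    omega
  rw [h1, Finset.sum_range]
  refine Finset.sum_congr rfl fun j _ => ?_
  unfold WRD_M
  split_ifs with h
  · have hk : WRD_x P z k = P (z k) := by
      unfold WRD_x
      rw [dif_pos k.2]
    have hj : WRD_x P z j = P (z j) := by
      unfold WRD_x
      rw [dif_pos j.2]
    rw [hk, hj, hP.symm]
    rfl
  · simp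

theorem WRD_le (P : H →L[ℂ] H) (hP : OProj P) (y : H) : ‖P y‖ ≤ ‖y‖ := by
  have h1 : ‖P y‖ ^ 2 = RCLike.re (inner ℂ y (P y)) := by
    rw [norm_sq_eq_re_inner (𝕜 := ℂ), hP.symm, hP.idem]
  have h2 : ‖P y‖ ^ 2 ≤ ‖y‖ * ‖P y‖ := by
    rw [h1]
    exact (RCLike.re_le_norm _).trans (norm_inner_le_norm _ _)
  by_cases h0 : ‖P y‖ = 0
  · rw [h0]
    exact norm_nonneg _
  · have h3 : 0 < ‖P y‖ := lt_of_le_of_ne (norm_nonneg _) (Ne.symm h0)
    rw [sq] at h2
    exact le_of_mul_le_mul_right h2 h3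

end

theorem WRD_choice (ε : ℝ) (L n : ℕ) (hε : 0 < ε) : ∃ δ : ℝ, 0 < δ ∧ δ ≤ 1 ∧ δ ≤ ε ∧ 2 ^ L * (n : ℝ) ^ (L + 2) * δ ≤ 1 ∧
    2 * (2 ^ L * (n : ℝ) ^ (L + 2) * δ) + 2 * (Real.sqrt (2 * δ) * n) * Real.sqrt (2 * L + 3) + (Real.sqrt (2 * δ) * n) ^ 2 ≤ ε := by
  have hc : Continuous fun δ : ℝ => 2 * (2 ^ L * (n : ℝ) ^ (L + 2) * δ) + 2 * (Real.sqrt (2 * δ) * n) * Real.sqrt (2 * L + 3) +
      (Real.sqrt (2 * δ) * n) ^ 2 := by fun_prop
  have hc2 : Continuous fun δ : ℝ => 2 ^ L * (n : ℝ) ^ (L + 2) * δ := by fun_prop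
  have h1 : ∀ᶠ δ in nhds (0 : ℝ), 2 * (2 ^ L * (n : ℝ) ^ (L + 2) * δ) + 2 * (Real.sqrt (2 * δ) * n) * Real.sqrt (2 * L + 3) +
      (Real.sqrt (2 * δ) * n) ^ 2 < ε := by
    have := hc.tendsto' 0 0 (by simp)
    exact this.eventually (gt_mem_nhds hε)
  have h2 : ∀ᶠ δ in nhds (0 : ℝ), 2 ^ L * (n : ℝ) ^ (L + 2) * δ < 1 := by
    have := hc2.tendsto' 0 0 (by simp)
    exact this.eventually (gt_mem_nhds one_pos)
  obtain ⟨r, hr, h3⟩ := Metric.eventually_nhds_iff.1 (h1.and h2)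
  obtain ⟨δ, hδ⟩ : ∃ δ : ℝ, δ = min (r / 2) (min 1 ε) := ⟨_, rfl⟩
  have hδ0 : 0 < δ := by
    rw [hδ]
    exact lt_min (by linarith) (lt_min one_pos hε)
  have hδr : δ ≤ r / 2 := by rw [hδ]; exact min_le_left _ _
  have h4 := h3 (y := δ) (by rw [Real.dist_eq, sub_zero, abs_of_pos hδ0]; linarith)
  refine ⟨δ, hδ0, ?_, ?_, h4.2.le, h4.1.le⟩
  · rw [hδ]
    exact (min_le_right _ _).trans (min_le_left _ _)
  · rw [hδ]
    exact (min_le_right _ _).trans (min_le_right _ _)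

theorem WRD_num (L n : ℕ) (hn : 1 ≤ n) (p q e t ε : ℝ) (hp : 0 ≤ p) (he : 0 ≤ e) (he1 : e ≤ 1) (ht : 0 ≤ t)
    (hε : 2 * e + 2 * t * Real.sqrt (2 * L + 3) + t ^ 2 ≤ ε) (hq : q ≤ L + e)
    (h : n * p ^ 2 ≤ Real.sqrt ((1 + 2 * q) * (n * p ^ 2)) + t * (n * p)) : p ^ 2 ≤ (2 * L + 1) / n + ε := by
  have hn0 : (0 : ℝ) < n := by exact_mod_cast hn
  have hn1 : (1 : ℝ) ≤ n := by exact_mod_cast hn
  have hL : (0 : ℝ) ≤ L := Nat.cast_nonneg L
  obtain ⟨s, hs⟩ : ∃ s : ℝ, s = (1 + 2 * (L + e)) / n := ⟨_, rfl⟩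
  have hs0 : 0 ≤ s := by rw [hs]; positivity
  have h1 : Real.sqrt ((1 + 2 * q) * (n * p ^ 2)) ≤ Real.sqrt s * (n * p) := by
    refine Real.sqrt_le_iff.2 ⟨by positivity, ?_⟩
    rw [mul_pow, Real.sq_sqrt hs0, hs]
    have h2 : (1 + 2 * (L + e)) / n * (n * p) ^ 2 = (1 + 2 * (L + e)) * (n * p ^ 2) := by
      field_simp
    rw [h2]
    exact mul_le_mul_of_nonneg_right (by linarith) (by positivity)
  have h3 : p ≤ Real.sqrt s + t := by
    by_cases hp0 : p = 0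
    · rw [hp0]
      positivity
    · have hp1 : 0 < p := lt_of_le_of_ne hp (Ne.symm hp0)
      have h4 : (n * p) * p ≤ (n * p) * (Real.sqrt s + t) := by nlinarith
      exact le_of_mul_le_mul_left h4 (by positivity)
  have hs1 : s ≤ 2 * L + 3 := by
    rw [hs, div_le_iff₀ hn0]
    nlinarith
  have h5 : Real.sqrt s ≤ Real.sqrt (2 * L + 3) := Real.sqrt_le_sqrt hs1
  have h6 : p ^ 2 ≤ (Real.sqrt s + t) ^ 2 := pow_le_pow_left₀ hp h3 2
  have h7 : (Real.sqrt s + t) ^ 2 = s + 2 * t * Real.sqrt s + t ^ 2 := by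
    rw [add_sq, Real.sq_sqrt hs0]
    ring
  have h8 : s ≤ (2 * L + 1) / n + 2 * e := by
    have h9 : s = (2 * L + 1) / n + 2 * e / n := by
      rw [hs]
      ring
    have h10 : 2 * e / n ≤ 2 * e := div_le_self (by linarith) hn1
    linarith
  have h11 : 2 * t * Real.sqrt s ≤ 2 * t * Real.sqrt (2 * L + 3) := mul_le_mul_of_nonneg_left h5 (by linarith)
  linarith

theorem WRD_proof (hWL1 : WL1_stmt) (hWL2 : WL2_stmt) : WRD_stmt := by
  intro ε L n hε hn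
  obtain ⟨δ, hδ0, hδ1, hδε, hδe, hδ2⟩ := WRD_choice ε L n hε
  refine ⟨δ, hδ0, ?_⟩
  intro H _ _ _ V P Φ hV hP hΦ hVΦ hW
  have hPP : P * P = P := ContinuousLinearMap.ext fun x => hP.idem x
  have hn0 : (0 : ℝ) < n := by exact_mod_cast hn
  rcases Nat.eq_zero_or_pos L with hL | hL
  · -- words of length zero
    have h1 : ‖P‖ ≤ δ := hW [] (by simp [hL]) (by simp)
    have h2 : ‖P Φ‖ ≤ δ := by
      refine (ContinuousLinearMap.le_opNorm _ _).trans ?_
      calc ‖P‖ * ‖Φ‖ ≤ δ * 1 := mul_le_mul h1 hΦ (norm_nonneg _) hδ0.le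
        _ = δ := mul_one _
    have h3 : ‖P Φ‖ ^ 2 ≤ δ * 1 := by
      rw [sq]
      exact mul_le_mul h2 (h2.trans hδ1) (norm_nonneg _) hδ0.le
    have h4 : (0 : ℝ) ≤ (2 * L + 1) / n := by positivity
    linarith
  · obtain ⟨T, hT⟩ : ∃ T, T = WRD_mat (WRD_M V P n) := ⟨_, rfl⟩
    have hVle : ∀ m : ℕ, ‖V ^ m‖ ≤ 1 := by
      intro m
      induction m with
      | zero =>
        rw [pow_zero]
        exact ContinuousLinearMap.norm_id_le
      | succ m ih =>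
        rw [pow_succ]
        exact (norm_mul_le _ _).trans (mul_le_one₀ ih (norm_nonneg _) hV)
    have hPn : ‖P‖ ≤ 1 := ContinuousLinearMap.opNorm_le_bound _ zero_le_one fun y => by
      rw [one_mul]
      exact WRD_le P hP y
    have hTn : ‖T‖ ≤ n := by
      rw [hT]
      refine (WRD_mat_norm _ 1 zero_le_one fun k j => ?_).trans (le_of_eq (mul_one _))
      unfold WRD_M
      split_ifs
      · refine (norm_mul_le _ _).trans (mul_le_one₀ ((norm_mul_le _ _).trans (mul_le_one₀ hPn (norm_nonneg _) (hVle _))) (norm_nonneg _) hPn)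
      · rw [norm_zero]
        exact zero_le_one
    have hTpos : ∀ z : WRD_E n H, 0 ≤ ‖z‖ ^ 2 + 2 * (inner ℂ z (T z)).re := by
      intro z
      have h1 := (hWL1 H V Φ δ n (WRD_x P z) hV hΦ hVΦ).1
      rw [hT, WRD_form V P hP n z]
      have h2 : ∑ k ∈ Finset.range n, ‖WRD_x P z k‖ ^ 2 ≤ ‖z‖ ^ 2 := by
        rw [PiLp.norm_sq_eq_of_L2, Finset.sum_range]
        refine Finset.sum_le_sum fun k _ => ?_
        have hk : WRD_x P z k = P (z k) := by
          unfold WRD_x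
          rw [dif_pos k.2]
        rw [hk]
        exact pow_le_pow_left₀ (norm_nonneg _) (WRD_le P hP _) 2
      linarith
    have hTnil : T ^ n = 0 := by
      obtain ⟨l, hl⟩ : ∃ l, n = l + 1 := ⟨n - 1, by omega⟩
      have h1 : WRD_M V P n ^ n = 0 := by
        ext k j
        rw [WRD_nil V P n n k j (by have := k.2; omega)]
        rfl
      have h2 : T ^ n = WRD_mat (WRD_M V P n ^ n) := by
        rw [hT]
        have h3 := WRD_mat_pow (WRD_M V P n) (n - 1)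
        have h4 : n - 1 + 1 = n := by omega
        rw [h4] at h3
        exact h3.symm
      rw [h2, h1, WRD_mat_zero]
    have hTL := WRD_pow_norm V P hPP n L hL δ hδ0.le hW
    rw [← hT] at hTL
    have h5 := hWL2 (WRD_E n H) T n L _ hTnil hTpos hTL
    have hq : ‖T‖ ≤ L + 2 ^ L * (n : ℝ) ^ (L + 2) * δ := by
      refine h5.trans ?_
      have h6 : 2 ^ L * (n * ((n : ℝ) ^ L * δ)) * ‖T‖ ≤ 2 ^ L * (n * ((n : ℝ) ^ L * δ)) * n :=
        mul_le_mul_of_nonneg_left hTn (by positivity)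
      have h7 : 2 ^ L * (n * ((n : ℝ) ^ L * δ)) * n = 2 ^ L * (n : ℝ) ^ (L + 2) * δ := by ring
      linarith
    have h8 := (hWL1 H V Φ δ n (fun _ => P Φ) hV hΦ hVΦ).2
    obtain ⟨z, hz⟩ : ∃ z : WRD_E n H, z = WithLp.toLp 2 (fun _ : Fin n => P Φ) := ⟨_, rfl⟩
    have hzk : ∀ k, z k = P Φ := fun k => by rw [hz]
    have hzn : ‖z‖ ^ 2 = n * ‖P Φ‖ ^ 2 := by
      rw [PiLp.norm_sq_eq_of_L2]
      simp only [hzk]
      rw [Finset.sum_const, Finset.card_univ, Fintype.card_fin, nsmul_eq_mul]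
    have hform : ∑ k ∈ Finset.range n, ∑ j ∈ Finset.range k, inner ℂ (P Φ) ((V ^ (k - j)) (P Φ)) = inner ℂ z (T z) := by
      rw [hT, WRD_form V P hP n z]
      refine Finset.sum_congr rfl fun k hk => Finset.sum_congr rfl fun j hj => ?_
      have hkn := Finset.mem_range.1 hk
      have hjk := Finset.mem_range.1 hj
      have h9 : WRD_x P z k = P Φ := by
        unfold WRD_x
        rw [dif_pos hkn, hzk, hP.idem]
      have h10 : WRD_x P z j = P Φ := by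
        unfold WRD_x
        rw [dif_pos (by omega), hzk, hP.idem]
      rw [h9, h10]
    have hin : inner ℂ Φ (P Φ) = ((‖P Φ‖ ^ 2 : ℝ) : ℂ) := by
      have h9 : inner ℂ Φ (P Φ) = inner ℂ (P Φ) (P Φ) := by rw [hP.symm, hP.idem]
      rw [h9, inner_self_eq_norm_sq_to_K]
      push_cast
      rfl
    have h11 : ‖∑ k ∈ Finset.range n, inner ℂ Φ (P Φ)‖ = n * ‖P Φ‖ ^ 2 := by
      rw [Finset.sum_const, Finset.card_range, hin, nsmul_eq_mul, norm_mul, Complex.norm_natCast, Complex.norm_real,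
        Real.norm_of_nonneg (by positivity)]
    have h12 : (∑ k ∈ Finset.range n, ‖P Φ‖ ^ 2 + 2 * (∑ k ∈ Finset.range n, ∑ j ∈ Finset.range k, inner ℂ (P Φ) ((V ^ (k - j)) (P Φ))).re) ≤
        (1 + 2 * ‖T‖) * (n * ‖P Φ‖ ^ 2) := by
      rw [hform, Finset.sum_const, Finset.card_range, nsmul_eq_mul, ← hzn]
      have h13 : (inner ℂ z (T z)).re ≤ ‖T‖ * ‖z‖ ^ 2 := by
        refine (Complex.re_le_norm _).trans ((norm_inner_le_norm _ _).trans ?_)
        calc ‖z‖ * ‖T z‖ ≤ ‖z‖ * (‖T‖ * ‖z‖) := mul_le_mul_of_nonneg_left (ContinuousLinearMap.le_opNorm _ _) (norm_nonneg _)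
          _ = ‖T‖ * ‖z‖ ^ 2 := by ring
      linarith
    have h14 : (n : ℝ) * ‖P Φ‖ ^ 2 ≤ Real.sqrt ((1 + 2 * ‖T‖) * (n * ‖P Φ‖ ^ 2)) + (Real.sqrt (2 * δ) * n) * (n * ‖P Φ‖) := by
      rw [← h11]
      refine h8.trans (add_le_add (Real.sqrt_le_sqrt (h12.trans (le_of_eq (by rw [h11])))) (le_of_eq ?_))
      rw [Finset.sum_const, Finset.card_range, nsmul_eq_mul]
    exact WRD_num L n hn ‖P Φ‖ ‖T‖ (2 ^ L * (n : ℝ) ^ (L + 2) * δ) (Real.sqrt (2 * δ) * n) ε (norm_nonneg _) (by positivity)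
      hδe (by positivity) hδ2 hq h14

end Pool.Agent.RPQ
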