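import Pool.Agent.helper98.RPQ.SpecR
import Pool.Agent.helper65.RPQ.KPG
import Pool.Agent.helper65.RPQ.KPS
import Pool.Agent.helper65.RPQ.VXI

/-!
# MP_07c750, project RPQ, row PIN (the kernel on `Γ \ G` as an integral over paths)
-/

set_option autoImplicit false

open scoped MatrixGroups ContDiff Topology UpperHalfPlane ComplexConjugate ENNReal
open UpperHalfPlane MeasureTheory Filter Set

namespace Pool.Agent.RPQ

open Pool.Agent.RS
open Pool.Agent.MS (BA BB st pf gk Dk amk)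

theorem PIN_step (D t : ℝ) : ∃ D' : ℝ, 0 ≤ D' ∧ ∀ g h : SL(2, ℝ), (∀ i j, |((g * aM t)⁻¹ * h).1 i j| ≤ D) →
    dist (g • I : ℍ) (h • I) ≤ D' := by
  obtain ⟨D1, hD1⟩ := KPS_dist D
  refine ⟨dist (I : ℍ) (aM t • I) + |D1|, by positivity, fun g h hb => ?_⟩
  have h2 := (hD1 _ hb).trans (le_abs_self D1)
  have h3 : dist (g • I : ℍ) ((g * aM t) • I) = dist (I : ℍ) (aM t • I) := by
    rw [mul_smul]
    exact dist_smul g I (aM t • I)
  have h4 : dist ((g * aM t) • I : ℍ) (h • I) = dist (I : ℍ) (((g * aM t)⁻¹ * h) • I) := by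
    have h5 := dist_smul (g * aM t) I (((g * aM t)⁻¹ * h) • I)
    rw [← h5, ← mul_smul, mul_inv_cancel_left]
  calc dist (g • I : ℍ) (h • I) ≤ dist (g • I : ℍ) ((g * aM t) • I) + dist ((g * aM t) • I : ℍ) (h • I) :=
      dist_triangle _ _ _
    _ ≤ dist (I : ℍ) (aM t • I) + |D1| := by
      rw [h3, h4]
      linarith

theorem PIN_path {u : SL(2, ℝ) → ℂ} {D D' t : ℝ} (hu : ∀ b, u b ≠ 0 → ∀ i j, |b.1 i j| ≤ D)
    (hD' : ∀ g h : SL(2, ℝ), (∀ i j, |((g * aM t)⁻¹ * h).1 i j| ≤ D) → dist (g • I : ℍ) (h • I) ≤ D')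
    (w : ℕ → SL(2, ℝ)) (N : ℕ) (hw : ∀ j < N, u (ic t w j) ≠ 0) : ∀ j ≤ N, dist (w 0 • I : ℍ) (w j • I) ≤ j * D' := by
  intro j
  induction j with
  | zero =>
    intro _
    simp
  | succ j ih =>
    intro hj
    have h1 := ih (Nat.le_of_succ_le hj)
    have h2 := hD' (w j) (w (j + 1)) (hu _ (hw j hj))
    refine (dist_triangle _ (w j • I) _).trans ?_
    push_cast
    linarith

theorem PIN_wgt {u : SL(2, ℝ) → ℂ} {t : ℝ} {A : Set SL(2, ℝ)} {l : List ℕ} {w : ℕ → SL(2, ℝ)} (h : wgt u t A l w ≠ 0) :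
    ∀ j < nst l, u (ic t w j) ≠ 0 := by
  intro j hj h0
  apply h
  unfold wgt
  by_cases hw : w ∈ {w : ℕ → SL(2, ℝ) | ∀ j ∈ mks l, w j ∈ A}
  · rw [indicator_of_mem hw]
    exact Finset.prod_eq_zero (Finset.mem_range.mpr hj) h0
  · rw [indicator_of_notMem hw]

theorem PIN_wgtb {u : SL(2, ℝ) → ℂ} {t : ℝ} {A : Set SL(2, ℝ)} {l : List ℕ} {B : ℝ} (hB : ∀ b, ‖u b‖ ≤ B) (w : ℕ → SL(2, ℝ)) :
    ‖wgt u t A l w‖ ≤ B ^ nst l := by
  have hB0 : 0 ≤ B := (norm_nonneg _).trans (hB 1)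
  unfold wgt
  by_cases hw : w ∈ {w : ℕ → SL(2, ℝ) | ∀ j ∈ mks l, w j ∈ A}
  · rw [indicator_of_mem hw, norm_prod]
    calc _ ≤ ∏ _j ∈ Finset.range (nst l), B := Finset.prod_le_prod (fun _ _ => norm_nonneg _) (fun _ _ => hB _)
      _ = B ^ nst l := by rw [Finset.prod_const, Finset.card_range]
  · rw [indicator_of_notMem hw, norm_zero]
    positivity

/-- the weight is measurable in the end points and the vertices -/
theorem PIN_wm {u : SL(2, ℝ) → ℂ} (hu : Measurable u) (t : ℝ) {A : Set SL(2, ℝ)} (hA : MeasurableSet A) (l : List ℕ) (n : ℕ) :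
    Measurable (fun p : (SL(2, ℝ) × SL(2, ℝ)) × (Fin n → SL(2, ℝ)) => wgt u t A l (vx p.1.1 p.1.2 p.2)) := by
  haveI := A_GLC.2.1
  have h1 : Measurable (fun p : (SL(2, ℝ) × SL(2, ℝ)) × (Fin n → SL(2, ℝ)) =>
      ∏ j ∈ Finset.range (nst l), u (ic t (vx p.1.1 p.1.2 p.2) j)) := by
    apply Finset.measurable_prod
    intro j _
    exact hu.comp (VXI_proof.2.2.2.2.1 n j t).measurable
  have h2 : MeasurableSet {p : (SL(2, ℝ) × SL(2, ℝ)) × (Fin n → SL(2, ℝ)) | ∀ j ∈ mks l, vx p.1.1 p.1.2 p.2 j ∈ A} := by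
    have h3 : {p : (SL(2, ℝ) × SL(2, ℝ)) × (Fin n → SL(2, ℝ)) | ∀ j ∈ mks l, vx p.1.1 p.1.2 p.2 j ∈ A} =
        ⋂ j ∈ (mks l).toFinset, (fun p => vx p.1.1 p.1.2 p.2 j) ⁻¹' A := by
      ext p
      simp
    rw [h3]
    apply Finset.measurableSet_biInter
    intro j _
    exact (VXI_cont n j).measurable hA
  have h4 : (fun p : (SL(2, ℝ) × SL(2, ℝ)) × (Fin n → SL(2, ℝ)) => wgt u t A l (vx p.1.1 p.1.2 p.2)) =
      {p : (SL(2, ℝ) × SL(2, ℝ)) × (Fin n → SL(2, ℝ)) | ∀ j ∈ mks l, vx p.1.1 p.1.2 p.2 j ∈ A}.indicator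
        (fun p => ∏ j ∈ Finset.range (nst l), u (ic t (vx p.1.1 p.1.2 p.2) j)) := by
    funext p
    unfold wgt
    by_cases hw : vx p.1.1 p.1.2 p.2 ∈ {w : ℕ → SL(2, ℝ) | ∀ j ∈ mks l, w j ∈ A}
    · have hp : p ∈ {p : (SL(2, ℝ) × SL(2, ℝ)) × (Fin n → SL(2, ℝ)) | ∀ j ∈ mks l, vx p.1.1 p.1.2 p.2 j ∈ A} := hw
      rw [indicator_of_mem hw, indicator_of_mem hp]
    · have hp : p ∉ {p : (SL(2, ℝ) × SL(2, ℝ)) × (Fin n → SL(2, ℝ)) | ∀ j ∈ mks l, vx p.1.1 p.1.2 p.2 j ∈ A} := hw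
      rw [indicator_of_notMem hw, indicator_of_notMem hp]
  rw [h4]
  exact h1.indicator h2

/-- end points and an element of the path space -/
def PIN_phi (Γ : Subgroup SL(2, ℝ)) (n : ℕ) (p : (SL(2, ℝ) × SL(2, ℝ)) × (Γ × (Fin n → SL(2, ℝ)))) :
    (SL(2, ℝ) × SL(2, ℝ)) × (Fin n → SL(2, ℝ)) := ((p.1.1, (p.2.1 : SL(2, ℝ)) * p.1.2), p.2.2)

theorem PIN_phim (Γ : Subgroup SL(2, ℝ)) (n : ℕ) : Measurable (PIN_phi Γ n) := by
  haveI := A_GLC.2.1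
  unfold PIN_phi
  have h1 : Measurable (fun p : (SL(2, ℝ) × SL(2, ℝ)) × (Γ × (Fin n → SL(2, ℝ))) => (p.2.1 : SL(2, ℝ))) :=
    measurable_subtype_coe.comp (measurable_fst.comp measurable_snd)
  have h2 : Measurable (fun p : (SL(2, ℝ) × SL(2, ℝ)) × (Γ × (Fin n → SL(2, ℝ))) => (p.2.1 : SL(2, ℝ)) * p.1.2) :=
    h1.mul (measurable_snd.comp measurable_fst)
  exact ((measurable_fst.comp measurable_fst).prodMk h2).prodMk (measurable_snd.comp measurable_snd)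

theorem PIN_box (g : SL(2, ℝ)) (M : ℝ) (n : ℕ) :
    mP n {v : Fin n → SL(2, ℝ) | ∀ i, dist (g • I : ℍ) (v i • I) ≤ M} < ⊤ ∧
    MeasurableSet {v : Fin n → SL(2, ℝ) | ∀ i, dist (g • I : ℍ) (v i • I) ≤ M} := by
  haveI := A_GLC.2.1
  haveI : SigmaFinite mG := VXI_sf
  obtain ⟨C, hC, hCe⟩ := KPG_ball M
  have h1 : {v : Fin n → SL(2, ℝ) | ∀ i, dist (g • I : ℍ) (v i • I) ≤ M} =
      Set.pi Set.univ (fun _ : Fin n => {p : SL(2, ℝ) | dist (g • I : ℍ) (p • I) ≤ M}) := by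
    ext v
    simp [Set.mem_pi]
  rw [h1]
  constructor
  · unfold mP
    rw [Measure.pi_pi]
    apply ENNReal.prod_lt_top
    intro i _
    rw [hCe g]
    exact hC
  · exact MeasurableSet.pi Set.countable_univ (fun _ _ => KPG_ballm g M)

/-- the path of an element of the path space -/
def PIN_vo {Γ : Subgroup SL(2, ℝ)} (n : ℕ) (g h : SL(2, ℝ)) (q : Γ × (Fin n → SL(2, ℝ))) : ℕ → SL(2, ℝ) :=
  vx g ((q.1 : SL(2, ℝ)) * h) q.2

/-- the integrand -/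
noncomputable def PIN_E {Γ : Subgroup SL(2, ℝ)} {J : ℕ} (χ : Fin J → ℍ → ℝ) (κ t : ℝ) (u : SL(2, ℝ) → ℂ) (A : Set SL(2, ℝ))
    (l : List ℕ) (n : ℕ) (ξ : Fin J → ℝ) (g h : SL(2, ℝ)) (q : Γ × (Fin n → SL(2, ℝ))) : ℂ :=
  Complex.exp (((∑ j, ξ j * TH (χ j) κ t (nst l) g (ic t (PIN_vo n g h q)) : ℝ) : ℂ) * Complex.I) *
    wgt u t A l (PIN_vo n g h q)

section
variable {Γ : Subgroup SL(2, ℝ)} {J : ℕ} {χ : Fin J → ℍ → ℝ} {κ t : ℝ} {u : SL(2, ℝ) → ℂ} {A : Set SL(2, ℝ)} {l : List ℕ} {n : ℕ}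

theorem PIN_Wm (hu : Measurable u) (hA : MeasurableSet A) :
    Measurable (fun p : (SL(2, ℝ) × SL(2, ℝ)) × (Γ × (Fin n → SL(2, ℝ))) => wgt u t A l (PIN_vo n p.1.1 p.1.2 p.2)) :=
  (PIN_wm hu t hA l n).comp (PIN_phim Γ n)

theorem PIN_Tm (hT : ∀ (j : Fin J) (κ t : ℝ) (N n : ℕ), Continuous fun p : (SL(2, ℝ) × SL(2, ℝ)) × (Fin n → SL(2, ℝ)) =>
      TH (χ j) κ t N p.1.1 (ic t (vx p.1.1 p.1.2 p.2))) (N : ℕ) (j : Fin J) :
    Measurable (fun p : (SL(2, ℝ) × SL(2, ℝ)) × (Γ × (Fin n → SL(2, ℝ))) =>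
      TH (χ j) κ t N p.1.1 (ic t (PIN_vo n p.1.1 p.1.2 p.2))) := by
  haveI := A_GLC.2.1
  have h1 : Measurable (fun p : (SL(2, ℝ) × SL(2, ℝ)) × (Fin n → SL(2, ℝ)) =>
      TH (χ j) κ t N p.1.1 (ic t (vx p.1.1 p.1.2 p.2))) := (hT j κ t N n).measurable
  have h2 := h1.comp (PIN_phim Γ n)
  simpa only [PIN_phi, PIN_vo, Function.comp_def] using h2

theorem PIN_Em (hu : Measurable u) (hA : MeasurableSet A)
    (hT : ∀ (j : Fin J) (κ t : ℝ) (N n : ℕ), Continuous fun p : (SL(2, ℝ) × SL(2, ℝ)) × (Fin n → SL(2, ℝ)) =>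
      TH (χ j) κ t N p.1.1 (ic t (vx p.1.1 p.1.2 p.2))) :
    Measurable (fun p : ((Fin J → ℝ) × (SL(2, ℝ) × SL(2, ℝ))) × (Γ × (Fin n → SL(2, ℝ))) =>
      PIN_E χ κ t u A l n p.1.1 p.1.2.1 p.1.2.2 p.2) := by
  have hr : Measurable (fun p : ((Fin J → ℝ) × (SL(2, ℝ) × SL(2, ℝ))) × (Γ × (Fin n → SL(2, ℝ))) =>
      ((p.1.2, p.2) : (SL(2, ℝ) × SL(2, ℝ)) × (Γ × (Fin n → SL(2, ℝ))))) :=
    (measurable_snd.comp measurable_fst).prodMk measurable_snd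
  have h1 : Measurable (fun p : ((Fin J → ℝ) × (SL(2, ℝ) × SL(2, ℝ))) × (Γ × (Fin n → SL(2, ℝ))) =>
      ∑ j, p.1.1 j * TH (χ j) κ t (nst l) p.1.2.1 (ic t (PIN_vo n p.1.2.1 p.1.2.2 p.2))) := by
    apply Finset.measurable_sum
    intro j _
    have h2 : Measurable (fun p : ((Fin J → ℝ) × (SL(2, ℝ) × SL(2, ℝ))) × (Γ × (Fin n → SL(2, ℝ))) => p.1.1 j) :=
      (measurable_pi_apply j).comp (measurable_fst.comp measurable_fst)
    have h4 : Measurable (fun p : ((Fin J → ℝ) × (SL(2, ℝ) × SL(2, ℝ))) × (Γ × (Fin n → SL(2, ℝ))) =>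
        TH (χ j) κ t (nst l) p.1.2.1 (ic t (PIN_vo n p.1.2.1 p.1.2.2 p.2))) := by
      have h5 := (PIN_Tm (Γ := Γ) (n := n) (κ := κ) (t := t) hT (nst l) j).comp hr
      simpa only [Function.comp_def] using h5
    exact h2.mul h4
  have h3 : Measurable (fun x : ℝ => Complex.exp (((x : ℝ) : ℂ) * Complex.I)) :=
    (Complex.continuous_exp.comp (Complex.continuous_ofReal.mul continuous_const)).measurable
  have h6 : Measurable (fun p : ((Fin J → ℝ) × (SL(2, ℝ) × SL(2, ℝ))) × (Γ × (Fin n → SL(2, ℝ))) =>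
      Complex.exp (((∑ j, p.1.1 j * TH (χ j) κ t (nst l) p.1.2.1 (ic t (PIN_vo n p.1.2.1 p.1.2.2 p.2)) : ℝ) : ℂ) * Complex.I)) := by
    have h7 := h3.comp h1
    simpa only [Function.comp_def] using h7
  have h8 : Measurable (fun p : ((Fin J → ℝ) × (SL(2, ℝ) × SL(2, ℝ))) × (Γ × (Fin n → SL(2, ℝ))) =>
      wgt u t A l (PIN_vo n p.1.2.1 p.1.2.2 p.2)) := by
    have h9 := (PIN_Wm (Γ := Γ) (n := n) (t := t) (l := l) hu hA).comp hr
    simpa only [Function.comp_def] using h9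
  unfold PIN_E
  exact h6.mul h8

theorem PIN_Eq (hu : Measurable u) (hA : MeasurableSet A)
    (hT : ∀ (j : Fin J) (κ t : ℝ) (N n : ℕ), Continuous fun p : (SL(2, ℝ) × SL(2, ℝ)) × (Fin n → SL(2, ℝ)) =>
      TH (χ j) κ t N p.1.1 (ic t (vx p.1.1 p.1.2 p.2))) (ξ : Fin J → ℝ) (g h : SL(2, ℝ)) :
    Measurable (fun q : Γ × (Fin n → SL(2, ℝ)) => PIN_E χ κ t u A l n ξ g h q) := by
  have h1 : Measurable (fun q : Γ × (Fin n → SL(2, ℝ)) =>
      (((ξ, (g, h)), q) : ((Fin J → ℝ) × (SL(2, ℝ) × SL(2, ℝ))) × (Γ × (Fin n → SL(2, ℝ))))) :=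
    measurable_const.prodMk measurable_id
  have h2 := (PIN_Em (Γ := Γ) (n := n) (κ := κ) (t := t) (l := l) hu hA hT).comp h1
  simpa only [Function.comp_def] using h2

theorem PIN_Eb {B : ℝ} (hB : ∀ b, ‖u b‖ ≤ B) (ξ : Fin J → ℝ) (g h : SL(2, ℝ)) (q : Γ × (Fin n → SL(2, ℝ))) :
    ‖PIN_E χ κ t u A l n ξ g h q‖ ≤ B ^ nst l := by
  unfold PIN_E
  rw [norm_mul, Complex.norm_exp_ofReal_mul_I, one_mul]
  exact PIN_wgtb hB _

theorem PIN_Es (hn : n + 1 = nst l) {D D' : ℝ} (hu : ∀ b, u b ≠ 0 → ∀ i j, |b.1 i j| ≤ D) (hD0 : 0 ≤ D')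
    (hD' : ∀ g h : SL(2, ℝ), (∀ i j, |((g * aM t)⁻¹ * h).1 i j| ≤ D) → dist (g • I : ℍ) (h • I) ≤ D')
    (ξ : Fin J → ℝ) (g h : SL(2, ℝ)) (q : Γ × (Fin n → SL(2, ℝ))) (hE : PIN_E χ κ t u A l n ξ g h q ≠ 0) :
    dist (g • I : ℍ) (((q.1 : SL(2, ℝ)) * h) • I) ≤ nst l * D' ∧ ∀ i, dist (g • I : ℍ) (q.2 i • I) ≤ nst l * D' := by
  have h1 := PIN_wgt (right_ne_zero_of_mul hE)
  have h2 := PIN_path hu hD' (PIN_vo n g h q) (nst l) h1
  have h0 : PIN_vo n g h q 0 = g := rfl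
  rw [h0] at h2
  have hlast : PIN_vo n g h q (nst l) = (q.1 : SL(2, ℝ)) * h := by
    rw [← hn]
    exact VXI_last n g ((q.1 : SL(2, ℝ)) * h) q.2
  refine ⟨?_, fun i => ?_⟩
  · have h3 := h2 (nst l) le_rfl
    rw [hlast] at h3
    exact h3
  · have hi : (i : ℕ) + 1 ≤ nst l := by
      have := i.2
      omega
    have h3 := h2 (i + 1) hi
    have h4 : PIN_vo n g h q (i + 1) = q.2 i := by
      show (if hj : (i : ℕ) < n then q.2 ⟨i, hj⟩ else (q.1 : SL(2, ℝ)) * h) = q.2 i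
      rw [dif_pos i.2]
    rw [h4] at h3
    refine h3.trans ?_
    exact mul_le_mul_of_nonneg_right (by exact_mod_cast hi) hD0

theorem PIN_int (hΓ : QU.SurfaceGroup Γ) (hc : Countable Γ) (hn : n + 1 = nst l) (hu : Measurable u) (hA : MeasurableSet A)
    (hB : ∃ B : ℝ, ∀ b, ‖u b‖ ≤ B) (hD : ∃ D : ℝ, ∀ b, u b ≠ 0 → ∀ i j, |b.1 i j| ≤ D)
    (hT : ∀ (j : Fin J) (κ t : ℝ) (N n : ℕ), Continuous fun p : (SL(2, ℝ) × SL(2, ℝ)) × (Fin n → SL(2, ℝ)) =>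
      TH (χ j) κ t N p.1.1 (ic t (vx p.1.1 p.1.2 p.2))) (ξ : Fin J → ℝ) (g h : SL(2, ℝ)) :
    ∃ S : Finset Γ, (∀ γ, γ ∉ S → ∀ v, PIN_E χ κ t u A l n ξ g h (γ, v) = 0) ∧
      Integrable (fun q : Γ × (Fin n → SL(2, ℝ)) => PIN_E χ κ t u A l n ξ g h q) ((Measure.count : Measure Γ).prod (mP n)) := by
  haveI : SigmaFinite mG := VXI_sf
  haveI hsP : SigmaFinite (mP n) := VXI_proof.2.2.2.2.2.1 _
  obtain ⟨B, hB⟩ := hB
  obtain ⟨D, hD⟩ := hD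
  obtain ⟨D1, hD10, hD1⟩ := PIN_step D t
  obtain ⟨K, hK⟩ := KPG_cnt hΓ (nst l * D1)
  have hfin := (hK g h).1
  have hEs := fun (q : Γ × (Fin n → SL(2, ℝ))) (hE : PIN_E χ κ t u A l n ξ g h q ≠ 0) =>
    PIN_Es hn hD hD10 hD1 ξ g h q hE
  refine ⟨hfin.toFinset, fun γ hγ v => ?_, ?_⟩
  · by_contra h0
    apply hγ
    rw [Set.Finite.mem_toFinset]
    exact (hEs (γ, v) h0).1
  · have hbox := PIN_box g (nst l * D1) n
    have hct : (Measure.count : Measure Γ) {γ : Γ | dist (g • I : ℍ) (((γ : SL(2, ℝ)) * h) • I) ≤ nst l * D1} ≠ ⊤ :=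
      (Measure.count_apply_lt_top.mpr hfin).ne
    have h1 : IntegrableOn (fun q : Γ × (Fin n → SL(2, ℝ)) => PIN_E χ κ t u A l n ξ g h q)
        ({γ : Γ | dist (g • I : ℍ) (((γ : SL(2, ℝ)) * h) • I) ≤ nst l * D1} ×ˢ
        {v : Fin n → SL(2, ℝ) | ∀ i, dist (g • I : ℍ) (v i • I) ≤ nst l * D1}) ((Measure.count : Measure Γ).prod (mP n)) := by
      apply Measure.integrableOn_of_bounded (M := B ^ nst l)
      · rw [Measure.prod_prod]
        exact ENNReal.mul_ne_top hct hbox.1.ne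
      · exact (PIN_Eq hu hA hT ξ g h).aestronglyMeasurable
      · exact Eventually.of_forall (PIN_Eb hB ξ g h)
    apply h1.integrable_of_forall_notMem_eq_zero
    intro q hq
    by_contra h0
    exact hq ⟨(hEs q h0).1, (hEs q h0).2⟩

end

theorem PIN_proof (hWDK : WDK_stmt) (hTHL : THL_stmt) : PIN_stmt := by
  intro Γ F J χ κ t u A l hΓ hF hχ hu hB hD hA hAi hl
  haveI := A_GLC.2.1
  haveI hc : Countable Γ := (QU.A_DOB Γ F hΓ hF).1
  haveI : SigmaFinite mG := VXI_sf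
  haveI hsP : SigmaFinite (mP (nst l - 1)) := VXI_proof.2.2.2.2.2.1 _
  haveI hsO : SigmaFinite (mO Γ l) := by
    unfold mO
    infer_instance
  obtain ⟨hV, -, hTHc, -, hTHl⟩ := hTHL Γ J χ hχ
  have hnst : nst l - 1 + 1 = nst l := by
    obtain ⟨a, l', rfl⟩ := List.exists_cons_of_ne_nil hl
    unfold nst
    simp only [List.map_cons, List.sum_cons]
    omega
  have hq : ∀ g h : SL(2, ℝ), Measurable (fun q : Γ × (Fin (nst l - 1) → SL(2, ℝ)) =>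
      (((g, h), q) : (SL(2, ℝ) × SL(2, ℝ)) × (Γ × (Fin (nst l - 1) → SL(2, ℝ))))) :=
    fun g h => measurable_const.prodMk measurable_id
  have hform : ∀ (ξ : Fin J → ℝ) (g h : SL(2, ℝ)), perK Γ (wdK (VV χ ξ) κ t u A l) g h =
      ∫ q, PIN_E χ κ t u A l (nst l - 1) ξ g h q ∂((Measure.count : Measure Γ).prod (mP (nst l - 1))) := by
    intro ξ g h
    obtain ⟨S, hS, hint⟩ := PIN_int hΓ hc hnst hu hA hB hD hTHc ξ g h
    have h1 : ∫ q, PIN_E χ κ t u A l (nst l - 1) ξ g h q ∂((Measure.count : Measure Γ).prod (mP (nst l - 1))) =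
        ∑' γ : Γ, ∫ v, PIN_E χ κ t u A l (nst l - 1) ξ g h (γ, v) ∂mP (nst l - 1) := by
      rw [integral_prod _ hint, integral_countable' hint.integral_prod_left]
      simp only [Measure.real, Measure.count_singleton, ENNReal.toReal_one, one_smul]
    rw [h1]
    have h3 : ∀ γ : Γ, ∫ v, PIN_E χ κ t u A l (nst l - 1) ξ g h (γ, v) ∂mP (nst l - 1) =
        wdK (VV χ ξ) κ t u A l g ((γ : SL(2, ℝ)) * h) := by
      intro γ
      rw [hWDK Γ F (VV χ ξ) κ t u A l hΓ hF (hV ξ) hu hB hD hA hAi hl g ((γ : SL(2, ℝ)) * h)]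
      apply integral_congr_ae
      refine Eventually.of_forall fun v => ?_
      simp only [PIN_E]
      rw [hTHl]
      rfl
    have h4 : ∀ γ : Γ, γ ∉ S → ∫ v, PIN_E χ κ t u A l (nst l - 1) ξ g h (γ, v) ∂mP (nst l - 1) = 0 := by
      intro γ hγ
      simp only [hS γ hγ, integral_zero]
    rw [tsum_eq_sum (s := S) h4]
    unfold perK
    rw [finsum_eq_sum_of_support_subset (s := S)]
    · exact Finset.sum_congr rfl fun γ _ => (h3 γ).symm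
    · intro γ hγ
      by_contra h0
      apply hγ
      show wdK (VV χ ξ) κ t u A l g ((γ : SL(2, ℝ)) * h) = 0
      rw [← h3 γ]
      exact h4 γ (by simpa using h0)
  have hWq : ∀ g h : SL(2, ℝ), Measurable (fun q : Om Γ l => wgt u t A l (vo g h q)) := by
    intro g h
    have h1 := (PIN_Wm (Γ := Γ) (n := nst l - 1) (t := t) (l := l) hu hA).comp (hq g h)
    simpa only [Function.comp_def, PIN_vo, vo] using h1
  have hTq : ∀ g h : SL(2, ℝ), Measurable (fun (q : Om Γ l) (j : Fin J) => TH (χ j) κ t (nst l) g (ic t (vo g h q))) := by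
    intro g h
    apply measurable_pi_iff.mpr
    intro j
    have h1 := (PIN_Tm (Γ := Γ) (n := nst l - 1) (κ := κ) (t := t) hTHc (nst l) j).comp (hq g h)
    simpa only [Function.comp_def, PIN_vo, vo] using h1
  refine ⟨hsO, hc, fun g h => ⟨hWq g h, hTq g h⟩, hform, ?_⟩
  have h1 : (fun p : (Fin J → ℝ) × (SL(2, ℝ) × SL(2, ℝ)) => perK Γ (wdK (VV χ p.1) κ t u A l) p.2.1 p.2.2) =
      fun p => ∫ q, PIN_E χ κ t u A l (nst l - 1) p.1 p.2.1 p.2.2 q ∂((Measure.count : Measure Γ).prod (mP (nst l - 1))) := by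
    funext p
    exact hform p.1 p.2.1 p.2.2
  rw [h1]
  have h2 := (PIN_Em (Γ := Γ) (n := nst l - 1) (κ := κ) (t := t) (l := l) hu hA hTHc).stronglyMeasurable.integral_prod_right'
    (ν := (Measure.count : Measure Γ).prod (mP (nst l - 1)))
  exact h2.measurable

end Pool.Agent.RPQ
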