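import Pool.Agent.helper29.RPQ.SpecP
import Pool.Agent.helper65.RS.BKB
import Pool.Agent.helper65.RS.OIB

/-!
# MP_07c750, project RPQ, row BUB (the boundary integral for `|t| ≤ 4`, packets of explicit width)
-/

set_option autoImplicit false

open scoped MatrixGroups ContDiff Topology UpperHalfPlane ComplexConjugate
open UpperHalfPlane MeasureTheory Filter Set

namespace Pool.Agent.RPQ

open Pool.Agent.RS
open Pool.Agent.MS (BA BB st pf gk Dk amk)

theorem BUB_G (hOIB : OIB_stmt) (c : ℝ → ℂ) (D : ℝ → ℝ) (lam s d H L m M0 M1 A B : ℝ) (hAB : A ≤ B)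
    (hc : ContDiff ℝ 1 c) (hD : ContDiff ℝ 2 D) (hpos : ∀ x, 0 < D x)
    (hcA : c A = 0) (hcB : c B = 0) (hd : 0 < d)
    (hdD : ∀ x ∈ Icc A B, d ^ 2 ≤ D x)
    (hH : ∀ x ∈ Icc A B, |deriv D x| ≤ H * D x) (hm : 0 < m)
    (hmθ : ∀ x ∈ Icc A B, m ≤ |lam + s * (deriv D x / D x)|)
    (hL : ∀ x ∈ Icc A B,
      |s * ((deriv (deriv D) x * D x - deriv D x * deriv D x) / D x ^ 2)| ≤ L)
    (hM0 : ∀ x, ‖c x‖ ≤ M0) (hM1 : ∀ x, ‖deriv c x‖ ≤ M1) :
    ‖∫ x in A..B, c x * (Complex.exp (((lam * x : ℝ) : ℂ) * Complex.I) *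
      ((D x : ℝ) : ℂ) ^ (-(1 / 2 : ℂ) + (s : ℂ) * Complex.I))‖ ≤
      (B - A) * (((M1 + M0 * H / 2) / d) / m + (M0 / d) * L / m ^ 2) := by
  have hM00 : 0 ≤ M0 := (norm_nonneg _).trans (hM0 0)
  have hD1 : ContDiff ℝ 1 (deriv D) := by
    have h2 : ContDiff ℝ (1 + 1) D := by
      have h3 : (1 + 1 : WithTop ℕ∞) = 2 := by norm_num
      rw [h3]
      exact hD
    exact (contDiff_succ_iff_deriv.mp h2).2.2
  have hDd : ∀ x, HasDerivAt D (deriv D x) x := fun x => (hD.differentiable (by norm_num) x).hasDerivAt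
  have hDd2 : ∀ x, HasDerivAt (deriv D) (deriv (deriv D) x) x := fun x =>
    (hD1.differentiable (by norm_num) x).hasDerivAt
  let P : ℝ → ℝ := fun x => D x ^ (-(1 / 2) : ℝ)
  let a : ℝ → ℂ := fun x => c x * ((P x : ℝ) : ℂ)
  let θ : ℝ → ℝ := fun x => lam * x + s * Real.log (D x)
  have hP1 : ContDiff ℝ 1 P := by
    have h1 : ContDiff ℝ 1 D := hD.of_le (by norm_num)
    exact h1.rpow_const_of_ne (fun x => (hpos x).ne')
  have ha : ContDiff ℝ 1 a := hc.mul (Complex.ofRealCLM.contDiff.comp hP1)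
  have hθ : ContDiff ℝ 2 θ := by
    have h1 : ContDiff ℝ 2 (fun x => Real.log (D x)) := hD.log (fun x => (hpos x).ne')
    exact (contDiff_const.mul contDiff_id).add (contDiff_const.mul h1)
  have hθd : deriv θ = fun x => lam + s * (deriv D x / D x) := by
    funext x
    have h1 : HasDerivAt (fun x => Real.log (D x)) (deriv D x / D x) x := (hDd x).log (hpos x).ne'
    have h2 : HasDerivAt (fun x : ℝ => lam * x) lam x := by
      simpa using (hasDerivAt_id x).const_mul lam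
    exact (h2.add (h1.const_mul s)).deriv
  have hθd2 : ∀ x, deriv (deriv θ) x = s * ((deriv (deriv D) x * D x - deriv D x * deriv D x) / D x ^ 2) := by
    intro x
    rw [hθd]
    have h1 : HasDerivAt (fun x => deriv D x / D x)
        ((deriv (deriv D) x * D x - deriv D x * deriv D x) / D x ^ 2) x :=
      (hDd2 x).fun_div (hDd x) (hpos x).ne'
    exact ((h1.const_mul s).const_add lam).deriv
  have had : ∀ x, deriv a x = deriv c x * ((P x : ℝ) : ℂ) +
      c x * (((deriv D x * (-(1 / 2)) * D x ^ (-(1 / 2) - 1 : ℝ) : ℝ)) : ℂ) := by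
    intro x
    have h1 : HasDerivAt P (deriv D x * (-(1 / 2)) * D x ^ (-(1 / 2) - 1 : ℝ)) x :=
      (hDd x).rpow_const (Or.inl (hpos x).ne')
    have h2 : HasDerivAt c (deriv c x) x := (hc.differentiable (by norm_num) x).hasDerivAt
    exact (h2.fun_mul h1.ofReal_comp).deriv
  have hPpos : ∀ x, 0 < P x := fun x => Real.rpow_pos_of_pos (hpos x) _
  have hPd : ∀ x ∈ Icc A B, P x ≤ 1 / d := by
    intro x hx
    have h1 := hdD x hx
    have h2 : d ≤ √(D x) := Real.le_sqrt_of_sq_le h1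
    have h3 : P x = (√(D x))⁻¹ := by
      simp only [P]
      rw [Real.rpow_neg (hpos x).le, ← Real.sqrt_eq_rpow]
    rw [h3, one_div]
    exact inv_anti₀ hd h2
  have hPm : ∀ x, D x ^ (-(1 / 2) - 1 : ℝ) = P x / D x := by
    intro x
    simp only [P]
    rw [Real.rpow_sub (hpos x), Real.rpow_one]
  have ha0 : ∀ x ∈ Icc A B, ‖a x‖ ≤ M0 / d := by
    intro x hx
    have h1 : ‖a x‖ = ‖c x‖ * P x := by
      simp only [a]
      rw [norm_mul, Complex.norm_real, Real.norm_eq_abs, abs_of_pos (hPpos x)]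
    rw [h1]
    calc ‖c x‖ * P x ≤ M0 * (1 / d) := mul_le_mul (hM0 x) (hPd x hx) (hPpos x).le hM00
      _ = M0 / d := by ring
  have ha1 : ∀ x ∈ Icc A B, ‖deriv a x‖ ≤ (M1 + M0 * H / 2) / d := by
    intro x hx
    rw [had x]
    have hM10 : 0 ≤ M1 := (norm_nonneg _).trans (hM1 0)
    have b1 : ‖deriv c x * ((P x : ℝ) : ℂ)‖ ≤ M1 * (1 / d) := by
      rw [norm_mul, Complex.norm_real, Real.norm_eq_abs, abs_of_pos (hPpos x)]
      exact mul_le_mul (hM1 x) (hPd x hx) (hPpos x).le hM10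
    have b2 : |deriv D x * (-(1 / 2)) * D x ^ (-(1 / 2) - 1 : ℝ)| ≤ H / 2 * (1 / d) := by
      rw [hPm x, abs_mul, abs_mul, abs_of_pos (div_pos (hPpos x) (hpos x)), abs_neg,
        abs_of_pos (by norm_num : (0 : ℝ) < 1 / 2)]
      have h1 := hH x hx
      have hH0 : 0 ≤ H := by
        by_contra hneg
        push Not at hneg
        have h2 : H * D x < 0 := mul_neg_of_neg_of_pos hneg (hpos x)
        have h3 := abs_nonneg (deriv D x)
        linarith
      have h2 : |deriv D x| * (1 / 2) * (P x / D x) ≤ H * D x * (1 / 2) * (P x / D x) :=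
        mul_le_mul_of_nonneg_right (mul_le_mul_of_nonneg_right h1 (by norm_num))
          (div_pos (hPpos x) (hpos x)).le
      have h3 : H * D x * (1 / 2) * (P x / D x) = H / 2 * P x := by
        have := (hpos x).ne'
        field_simp
      rw [h3] at h2
      exact h2.trans (mul_le_mul_of_nonneg_left (hPd x hx) (by positivity))
    have b3 : ‖c x * (((deriv D x * (-(1 / 2)) * D x ^ (-(1 / 2) - 1 : ℝ) : ℝ)) : ℂ)‖ ≤ M0 * (H / 2 * (1 / d)) := by
      rw [norm_mul, Complex.norm_real, Real.norm_eq_abs]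
      exact mul_le_mul (hM0 x) b2 (abs_nonneg _) hM00
    calc _ ≤ ‖deriv c x * ((P x : ℝ) : ℂ)‖ +
          ‖c x * (((deriv D x * (-(1 / 2)) * D x ^ (-(1 / 2) - 1 : ℝ) : ℝ)) : ℂ)‖ := norm_add_le _ _
      _ ≤ M1 * (1 / d) + M0 * (H / 2 * (1 / d)) := add_le_add b1 b3
      _ = (M1 + M0 * H / 2) / d := by ring
  have hAa : a A = 0 := by
    simp only [a, hcA, zero_mul]
  have hBa : a B = 0 := by
    simp only [a, hcB, zero_mul]
  have key := hOIB a θ A B m L (M0 / d) ((M1 + M0 * H / 2) / d) hAB ha hθ hAa hBa hm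
    (by
      intro x hx
      rw [hθd]
      exact hmθ x hx)
    (by
      intro x hx
      rw [hθd2 x]
      exact hL x hx) ha0 ha1
  have heq : ∫ x in A..B, c x * (Complex.exp (((lam * x : ℝ) : ℂ) * Complex.I) *
      ((D x : ℝ) : ℂ) ^ (-(1 / 2 : ℂ) + (s : ℂ) * Complex.I)) =
      ∫ x in A..B, a x * Complex.exp ((θ x : ℂ) * Complex.I) := by
    apply intervalIntegral.integral_congr
    intro x _
    simp only [a, θ, P]
    rw [BKG_cpow (hpos x) lam x]
    ring
  rw [heq]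
  exact key

theorem BUB_inner (hOIB : OIB_stmt) {c : ℝ → ℂ} (hc : ContDiff ℝ 1 c) {M0 M1 l : ℝ} (hl : 0 < l) (hl1 : l ≤ 1)
    (hM0 : ∀ τ, ‖c τ‖ ≤ M0) (hM1 : ∀ τ, ‖deriv c τ‖ ≤ M1) (hc0 : ∀ τ, l / 8 < |τ| → c τ = 0)
    {r s t x : ℝ} (hr : 1 ≤ r) (hs : |s - r| ≤ r / 100) (ht : |t| ≤ 4) (hx : |x| ≤ 1 / 4) :
    ‖∫ τ in (-(l / 4) : ℝ)..(l / 4), c τ * (Complex.exp ((((r - s) * τ : ℝ) : ℂ) * Complex.I) *
      (((x - t) ^ 2 + Real.exp (2 * τ) : ℝ) : ℂ) ^ (-(1 / 2 : ℂ) + (s : ℂ) * Complex.I))‖ ≤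
      (50 * l * M1 + 5050 * l * M0) / r := by
  have hr0 : 0 < r := by linarith
  obtain ⟨hs1, hs2⟩ := abs_le.mp hs
  have hs0 : 0 < s := by linarith
  have hM : 0 ≤ M0 := (norm_nonneg _).trans (hM0 0)
  have hM' : 0 ≤ M1 := (norm_nonneg _).trans (hM1 0)
  obtain ⟨hd1, hd2⟩ := BKB_deriv ((x - t) ^ 2)
  have hF : (x - t) ^ 2 ≤ 18.0625 := by
    have h1 : |x - t| ≤ 4.25 := by
      have h2 : |x - t| ≤ |x| + |t| := abs_sub _ _
      linarith
    have h2 : |x - t| ^ 2 ≤ 4.25 ^ 2 := pow_le_pow_left₀ (abs_nonneg _) h1 2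
    rw [sq_abs] at h2
    linarith
  have hF0 : 0 ≤ (x - t) ^ 2 := sq_nonneg _
  have hlow : ∀ τ ∈ Icc (-(l / 4)) (l / 4), 0.3678 ≤ Real.exp (2 * τ) := fun τ hτ =>
    BKB_exp (by have := hτ.1; linarith)
  have key := BUB_G hOIB c (fun τ => (x - t) ^ 2 + Real.exp (2 * τ)) (r - s) s (1 / 2) 2 (2 * r)
    (r / 50) M0 M1 (-(l / 4)) (l / 4) (by linarith) hc
    (contDiff_const.add (Real.contDiff_exp.comp (contDiff_const.mul contDiff_id)))
    (fun τ => by positivity) (hc0 _ (by rw [abs_neg, abs_of_pos (by linarith)]; linarith))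
    (hc0 _ (by rw [abs_of_pos (by linarith)]; linarith)) (by norm_num)
    (by
      intro τ hτ
      have h1 := hlow τ hτ
      linarith)
    (by
      intro τ hτ
      have h0 := Real.exp_pos (2 * τ)
      rw [hd1, abs_of_pos (by positivity)]
      linarith)
    (by positivity)
    (by
      intro τ hτ
      have h1 := hlow τ hτ
      have h0 := Real.exp_pos (2 * τ)
      rw [hd1]
      have hDpos : 0 < (x - t) ^ 2 + Real.exp (2 * τ) := by positivity
      have h2 : 0.039 ≤ 2 * Real.exp (2 * τ) / ((x - t) ^ 2 + Real.exp (2 * τ)) := by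
        rw [le_div_iff₀ hDpos]
        linarith
      have h3 : s * 0.039 ≤ s * (2 * Real.exp (2 * τ) / ((x - t) ^ 2 + Real.exp (2 * τ))) :=
        mul_le_mul_of_nonneg_left h2 hs0.le
      refine le_trans ?_ (le_abs_self _)
      linarith)
    (by
      intro τ hτ
      have h0 := Real.exp_pos (2 * τ)
      rw [hd1, hd2]
      have hDpos : 0 < (x - t) ^ 2 + Real.exp (2 * τ) := by positivity
      set E := Real.exp (2 * τ) with hE
      set F := (x - t) ^ 2 with hF'
      have h1 : 4 * E * (F + E) - 2 * E * (2 * E) = 4 * E * F := by ring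
      rw [h1, abs_mul, abs_of_pos hs0, abs_div, abs_of_nonneg (by positivity : 0 ≤ 4 * E * F),
        abs_of_pos (by positivity : 0 < (F + E) ^ 2)]
      have h2 : 4 * E * F / (F + E) ^ 2 ≤ 1 := by
        rw [div_le_one (by positivity)]
        nlinarith [sq_nonneg (E - F)]
      calc s * (4 * E * F / (F + E) ^ 2) ≤ s * 1 := mul_le_mul_of_nonneg_left h2 hs0.le
        _ ≤ 2 * r := by linarith)
    hM0 hM1
  refine key.trans (le_of_eq ?_)
  field_simp
  ring

theorem BUB_proof (hCWB : CWB_stmt) : BUB_stmt := by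
  intro α β hα hβ
  have hαs : ContDiff ℝ ∞ α := hα.1.1
  have hβs : ContDiff ℝ ∞ β := hβ.1.1
  have hαc : HasCompactSupport α := HasCompactSupport.intro (isCompact_Icc (a := -(1 / 8 : ℝ)) (b := 1 / 8)) (by
    intro x hx
    by_contra h
    exact hx (abs_le.mp (hα.1.2 x h)))
  have hβc : HasCompactSupport β := HasCompactSupport.intro (isCompact_Icc (a := -(1 / 8 : ℝ)) (b := 1 / 8)) (by
    intro x hx
    by_contra h
    exact hx (abs_le.mp (hβ.1.2 x h)))
  obtain ⟨A0, hA0⟩ := hαs.continuous.bounded_above_of_compact_support hαc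
  have hα1 : ContDiff ℝ 1 α := hαs.of_le (by exact_mod_cast le_top)
  obtain ⟨A1, hA1⟩ := (hα1.continuous_deriv le_rfl).bounded_above_of_compact_support hαc.deriv
  have hA00 : 0 ≤ A0 := (norm_nonneg _).trans (hA0 0)
  have hA10 : 0 ≤ A1 := (norm_nonneg _).trans (hA1 0)
  have hBi : 0 ≤ ∫ x, ‖β x‖ := integral_nonneg fun _ => norm_nonneg _
  refine ⟨(50 * A1 + 5050 * A0) * (∫ x, ‖β x‖) + 1, by positivity, ?_⟩
  intro R s w l t hR hs hw hw1 hl hl1 ht
  have hR0 : 0 < R := by linarith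
  obtain ⟨hst, hBw, hAl, hB8, hA8, hTB8, hTB4, hreal, hcc, hCB⟩ := hCWB α β w l hα hβ hw hw1 hl hl1
  set b : ℝ → ℝ := st (Real.log w) β with hb
  set a : ℝ → ℝ := sc l α with ha
  let C : ℝ → ℝ → ℂ := cc (cw β α w l)
  have hCeq : ∀ x τ, C x τ = (b x : ℂ) * (a τ : ℂ) := by
    intro x τ
    have h1 : C x τ = pr b a x τ := by
      simp only [C]
      rw [hcc]
    rw [h1]
    simp only [pr]
    push_cast
    ring
  let f : ℝ → ℝ → ℂ := fun τ x => C x τ * Complex.exp ((((R - s) * τ : ℝ) : ℂ) * Complex.I) *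
    ((((x - t) ^ 2 + Real.exp (2 * τ) : ℝ)) : ℂ) ^ (-(1 / 2 : ℂ) + (s : ℂ) * Complex.I)
  have hfc : Continuous (Function.uncurry f) := by
    have h1 : Continuous (fun p : ℝ × ℝ => C p.2 p.1) :=
      hCB.1.continuous.comp (continuous_snd.prodMk continuous_fst)
    have h2 : Continuous (fun p : ℝ × ℝ => Complex.exp ((((R - s) * p.1 : ℝ) : ℂ) * Complex.I)) := by
      apply Complex.continuous_exp.comp
      fun_prop
    have h3 : Continuous (fun p : ℝ × ℝ =>
        ((((p.2 - t) ^ 2 + Real.exp (2 * p.1)) : ℝ) : ℂ) ^ (-(1 / 2 : ℂ) + (s : ℂ) * Complex.I)) := by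
      apply Continuous.cpow _ continuous_const
      · intro p
        rw [Complex.ofReal_mem_slitPlane]
        positivity
      · fun_prop
    exact (h1.mul h2).mul h3
  have hfs : HasCompactSupport (Function.uncurry f) := by
    apply HasCompactSupport.intro ((isCompact_Icc (a := -(1 / 4 : ℝ)) (b := 1 / 4)).prod
      (isCompact_Icc (a := -(1 / 4 : ℝ)) (b := 1 / 4)))
    rintro ⟨τ, x⟩ hx
    by_contra h
    have h1 : C x τ ≠ 0 := by
      intro h2
      apply h
      simp only [Function.uncurry, f, h2, zero_mul]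
    obtain ⟨h2, h3⟩ := hCB.2 x τ h1
    exact hx ⟨abs_le.mp h3, abs_le.mp h2⟩
  have hswap : bI C R s t = ∫ x : ℝ, ∫ τ : ℝ, f τ x := by
    have h1 : bI C R s t = ∫ τ : ℝ, ∫ x : ℝ, f τ x := rfl
    rw [h1]
    exact integral_integral_swap (hfc.integrable_of_hasCompactSupport hfs)
  -- the amplitude in τ
  have had : ∀ τ, HasDerivAt a (deriv α (τ / l) / l / l) τ := by
    intro τ
    have h1 : HasDerivAt α (deriv α (τ / l)) (τ / l) := (hα1.differentiable (by norm_num) _).hasDerivAt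
    have h2 : HasDerivAt (fun τ : ℝ => τ / l) (1 / l) τ := (hasDerivAt_id τ).div_const l
    have h3 := (h1.comp τ h2).div_const l
    have h4 : deriv α (τ / l) * (1 / l) / l = deriv α (τ / l) / l / l := by ring
    rw [h4] at h3
    exact h3
  have hac : ContDiff ℝ 1 (fun τ => (a τ : ℂ)) :=
    Complex.ofRealCLM.contDiff.comp ((hAl.1.1).of_le (by exact_mod_cast le_top))
  have haM0 : ∀ τ, ‖((a τ : ℝ) : ℂ)‖ ≤ A0 / l := by
    intro τ
    have h1 : a τ = α (τ / l) / l := rfl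
    rw [Complex.norm_real, h1, norm_div, Real.norm_eq_abs l, abs_of_pos hl]
    exact div_le_div_of_nonneg_right (hA0 _) hl.le
  have haM1 : ∀ τ, ‖deriv (fun τ => (a τ : ℂ)) τ‖ ≤ A1 / l / l := by
    intro τ
    rw [((had τ).ofReal_comp).deriv, Complex.norm_real, norm_div, norm_div, Real.norm_eq_abs l, abs_of_pos hl]
    exact div_le_div_of_nonneg_right (div_le_div_of_nonneg_right (hA1 _) hl.le) hl.le
  have ha0 : ∀ τ, l / 8 < |τ| → (a τ : ℂ) = 0 := by
    intro τ hτ
    by_contra h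
    have h1 : a τ ≠ 0 := fun h2 => h (by rw [h2]; simp)
    have h2 := hAl.1.2 τ h1
    linarith
  have hb0 : ∀ x, b x ≠ 0 → |x| ≤ 1 / 8 := fun x h => hB8.1.2 x h
  have hJ : ∀ x, ‖∫ τ : ℝ, f τ x‖ ≤ ‖b x‖ * ((50 * A1 + 5050 * A0) / (l * R)) := by
    intro x
    by_cases hbx : b x = 0
    · have h1 : ∀ τ, f τ x = 0 := by
        intro τ
        simp only [f, hCeq, hbx, Complex.ofReal_zero, zero_mul]
      simp only [h1, integral_zero, norm_zero]
      positivity
    · have hx := hb0 x hbx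
      have h1 : ∫ τ : ℝ, f τ x = (b x : ℂ) * ∫ τ in (-(l / 4) : ℝ)..(l / 4), (a τ : ℂ) *
          (Complex.exp ((((R - s) * τ : ℝ) : ℂ) * Complex.I) *
          (((x - t) ^ 2 + Real.exp (2 * τ) : ℝ) : ℂ) ^ (-(1 / 2 : ℂ) + (s : ℂ) * Complex.I)) := by
        rw [intervalIntegral.integral_eq_integral_of_support_subset, ← integral_const_mul]
        · apply integral_congr_ae
          refine Eventually.of_forall fun τ => ?_
          simp only [f, hCeq]
          ring
        · intro τ hτ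
          have h2 : (a τ : ℂ) ≠ 0 := left_ne_zero_of_mul hτ
          have h3 : |τ| ≤ l / 8 := by
            by_contra h4
            exact h2 (ha0 τ (not_le.mp h4))
          obtain ⟨h4, h5⟩ := abs_le.mp h3
          exact ⟨by linarith, by linarith⟩
      rw [h1, norm_mul, Complex.norm_real]
      apply mul_le_mul_of_nonneg_left _ (norm_nonneg _)
      have h2 := BUB_inner (Pool.Agent.RS.OIB) hac hl hl1 haM0 haM1 ha0 hR hs ht (x := x) (by linarith)
      refine h2.trans ?_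
      have h3 : 50 * l * (A1 / l / l) + 5050 * l * (A0 / l) = (50 * A1 + 5050 * l * A0) / l := by
        field_simp
      rw [h3, div_div]
      apply div_le_div_of_nonneg_right _ (by positivity)
      nlinarith
  have hbc : Continuous b := hB8.1.1.continuous
  have hbsupp : HasCompactSupport b := HasCompactSupport.intro (isCompact_Icc (a := -(1 / 8 : ℝ)) (b := 1 / 8)) (by
    intro x hx
    by_contra h
    exact hx (abs_le.mp (hb0 x h)))
  have hbi : Integrable (fun x => ‖b x‖) := (hbc.integrable_of_hasCompactSupport hbsupp).norm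
  have hbint : ∫ x, ‖b x‖ = Real.sqrt w * ∫ x, ‖β x‖ := by
    have h1 : ∀ x, ‖b x‖ = w ^ (-(1 / 2) : ℝ) * ‖β (x / w)‖ := by
      intro x
      rw [hst x, norm_mul, Real.norm_eq_abs (w ^ (-(1 / 2) : ℝ)), abs_of_pos (Real.rpow_pos_of_pos hw _)]
    simp only [h1]
    rw [integral_const_mul, MeasureTheory.Measure.integral_comp_div (fun y => ‖β y‖) w, abs_of_pos hw, smul_eq_mul,
      ← mul_assoc]
    congr 1
    have h2 : Real.sqrt w = w ^ (-(1 / 2) : ℝ) * w := by
      rw [Real.sqrt_eq_rpow]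
      nth_rewrite 3 [← Real.rpow_one w]
      rw [← Real.rpow_add hw]
      norm_num
    exact h2.symm
  have h1 : ‖∫ x : ℝ, ∫ τ : ℝ, f τ x‖ ≤ ∫ x, ‖b x‖ * ((50 * A1 + 5050 * A0) / (l * R)) :=
    norm_integral_le_of_norm_le (hbi.mul_const _) (Eventually.of_forall hJ)
  have h2 : bI (cc (cw β α w l)) R s t = ∫ x : ℝ, ∫ τ : ℝ, f τ x := hswap
  rw [h2]
  refine h1.trans ?_
  rw [integral_mul_const, hbint]
  have h3 : 0 ≤ Real.sqrt w / (l * R) := by positivity
  have h4 : Real.sqrt w * (∫ x, ‖β x‖) * ((50 * A1 + 5050 * A0) / (l * R)) =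
      ((50 * A1 + 5050 * A0) * ∫ x, ‖β x‖) * (Real.sqrt w / (l * R)) := by ring
  rw [h4]
  apply mul_le_mul_of_nonneg_right _ h3
  linarith

end Pool.Agent.RPQ
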